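import Pool.Agent.E8helper67.TR.Indep
set_option autoImplicit false

/-!
The bands and the existence of a chain of circles.
-/

namespace Pool.Agent.E8helper67.TR

open Polynomial MeasureTheory Set Filter Topology

open Pool.Agent.E8helper67.PS

/-- the sign of a product -/
theorem sign_prod {N : ℕ} {a : Fin N → ℝ} {i : Fin N} (h1 : ∀ k, k < i → 0 < a k)
    (h2 : ∀ k, i ≤ k → a k < 0) : 0 < (-1 : ℝ) ^ (N - i.val) * ∏ k, a k := by
  classical
  have h3 : ∏ k, a k = (∏ k : Fin N, if k < i then (1 : ℝ) else -1) * ∏ k, |a k| := by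
    rw [← Finset.prod_mul_distrib]
    refine Finset.prod_congr rfl fun k _ => ?_
    split_ifs with h
    · rw [one_mul, abs_of_pos (h1 k h)]
    · rw [abs_of_neg (h2 k (not_lt.1 h))]
      ring
  have h4 : (∏ k : Fin N, if k < i then (1 : ℝ) else -1) = (-1) ^ (N - i.val) := by
    rw [Finset.prod_ite, Finset.prod_const_one, one_mul, Finset.prod_const]
    congr 1
    have h5 : Finset.univ.filter (fun k : Fin N => ¬ k < i) = Finset.Ici i := by
      ext k
      simp
    rw [h5, Fin.card_Ici]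
  rw [h3, h4, ← mul_assoc, ← mul_pow]
  norm_num
  refine Finset.prod_pos fun k _ => abs_pos.2 ?_
  rcases lt_or_ge k i with h | h
  · exact (h1 k h).ne'
  · exact (h2 k h).ne

theorem exists_between' {N : ℕ} (e : Fin N → ℝ) (he : StrictMono e) {Bad : Set ℝ} (hB : Bad.Finite)
    (i : Fin N) : ∃ x, x ∉ Bad ∧ x < e i ∧ ∀ j, j < i → e j < x := by
  have h1 : ∀ᶠ x in 𝓝[<] (e i), ∀ j, j < i → e j < x := by
    rw [eventually_all]
    intro j
    by_cases h : j < i
    · filter_upwards [nhdsWithin_le_nhds (lt_mem_nhds (he h))] with x hx _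
      exact hx
    · exact Eventually.of_forall fun x h' => absurd h' h
  have h2 : ∀ᶠ x in 𝓝[<] (e i), x ∉ Bad \ {e i} :=
    nhdsWithin_le_nhds ((hB.subset Set.sdiff_subset).isClosed.isOpen_compl.mem_nhds
      fun h => h.2 rfl)
  obtain ⟨x, hx1, hx2, hx3⟩ := (h1.and (h2.and self_mem_nhdsWithin)).exists
  have hx3 : x < e i := hx3
  exact ⟨x, fun h => hx2 ⟨h, fun h' => hx3.ne h'⟩, hx3, hx1⟩

/-- a polynomial with real roots at a real point -/
theorem eval_prod_real {p : ℂ[X]} (h : ∀ x, p.eval x = 0 → x.im = 0) :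
    ∃ ρ : ℝ → ℝ, ∀ x : ℝ, p.eval (x : ℂ) = p.leadingCoeff * (ρ x : ℂ) := by
  refine ⟨fun x => (p.roots.map fun r => x - r.re).prod, fun x => ?_⟩
  conv_lhs => rw [(IsAlgClosed.splits p).eq_prod_roots]
  rw [eval_mul, eval_C, eval_multiset_prod, Multiset.map_map]
  congr 1
  have h1 : (((p.roots.map fun r => x - r.re).prod : ℝ) : ℂ) =
      (p.roots.map fun r => ((x - r.re : ℝ) : ℂ)).prod := by
    have h2 := map_multiset_prod Complex.ofRealHom (p.roots.map fun r => x - r.re)
    rw [Multiset.map_map] at h2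
    exact h2
  rw [h1]
  congr 1
  refine Multiset.map_congr rfl fun r hr => ?_
  have h2 : r.im = 0 := h r (isRoot_of_mem_roots hr)
  have h3 : r = (r.re : ℂ) := by apply Complex.ext <;> simp [h2]
  simp only [Function.comp_apply, eval_sub, eval_X, eval_C]
  rw [Complex.ofReal_sub, ← h3]

/-- the sorted real roots -/
theorem exists_sorted {f : ℂ[X]} {N : ℕ} (hf : f.Separable) (hdeg : f.natDegree = N)
    (h : ∀ x, f.eval x = 0 → x.im = 0) :
    ∃ e : Fin N → ℝ, StrictMono e ∧
      ∀ x : ℝ, f.eval (x : ℂ) = f.leadingCoeff * ((∏ i, (x - e i) : ℝ) : ℂ) := by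
  classical
  have hnd : f.roots.Nodup := nodup_roots hf
  have hinj : Set.InjOn Complex.re (f.roots.toFinset : Set ℂ) := by
    intro a ha b hb hab
    have ha' : a.im = 0 := h a (isRoot_of_mem_roots (Multiset.mem_toFinset.1 ha))
    have hb' : b.im = 0 := h b (isRoot_of_mem_roots (Multiset.mem_toFinset.1 hb))
    exact Complex.ext hab (ha'.trans hb'.symm)
  have hcard : (f.roots.toFinset.image Complex.re).card = N := by
    rw [Finset.card_image_of_injOn hinj, Multiset.toFinset_card_of_nodup hnd,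
      ← (IsAlgClosed.splits f).natDegree_eq_card_roots, hdeg]
  set S := f.roots.toFinset.image Complex.re with hS
  refine ⟨S.orderEmbOfFin hcard, (S.orderEmbOfFin hcard).strictMono, fun x => ?_⟩
  conv_lhs => rw [(IsAlgClosed.splits f).eq_prod_roots]
  rw [eval_mul, eval_C, eval_multiset_prod, Multiset.map_map]
  congr 1
  have h1 : ∏ i, (x - S.orderEmbOfFin hcard i) = ∏ s ∈ S, (x - s) := by
    rw [← Finset.prod_coe_sort S fun s => x - s]
    exact (S.orderIsoOfFin hcard).toEquiv.prod_comp fun s : S => x - (s : ℝ)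
  rw [h1, hS, Finset.prod_image hinj]
  have h2 : (f.roots.map ((eval (x : ℂ)) ∘ fun a => X - C a)).prod =
      ∏ r ∈ f.roots.toFinset, ((x : ℂ) - r) := by
    rw [Finset.prod_eq_multiset_prod, Multiset.toFinset_val, hnd.dedup]
    congr 1
    refine Multiset.map_congr rfl fun r _ => ?_
    simp
  rw [h2]
  push_cast
  refine Finset.prod_congr rfl fun r hr => ?_
  have h3 : r.im = 0 := h r (isRoot_of_mem_roots (Multiset.mem_toFinset.1 hr))
  have h4 : r = (r.re : ℂ) := by apply Complex.ext <;> simp [h3]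
  rw [← h4]

/-- existence of a chain -/
theorem exists_chain {F B f : ℂ[X]} {g : ℕ} (hF : F.Monic) (hn : 0 < F.natDegree)
    (hR : RealOver F) (hBf : F ^ 2 - 4 = B ^ 2 * f) (hf : f.Separable)
    (hdeg : f.natDegree = 2 * g + 2) : Nonempty (Chain F g) := by
  classical
  have hc := hR.map_conj hF
  have hev : ∀ x, F.eval x ^ 2 - 4 = B.eval x ^ 2 * f.eval x := by
    intro x
    have := congrArg (eval x) hBf
    simpa using this
  have h4 : ∀ x, F.eval x ^ 2 - 4 = 0 → x.im = 0 := by
    intro x hx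
    have h1 : (F.eval x - 2) * (F.eval x + 2) = 0 := by linear_combination hx
    rcases mul_eq_zero.1 h1 with h | h
    · exact hR 2 (by norm_num) x (by push_cast; linear_combination h)
    · exact hR (-2) (by norm_num) x (by push_cast; linear_combination h)
  have hfr : ∀ x, f.eval x = 0 → x.im = 0 := fun x hx => h4 x (by rw [hev, hx, mul_zero])
  have hBr : ∀ x, B.eval x = 0 → x.im = 0 := fun x hx => h4 x (by
    rw [hev, hx, zero_pow two_ne_zero, zero_mul])
  obtain ⟨e, he, hfe⟩ := exists_sorted hf hdeg hfr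
  obtain ⟨ρ, hρ⟩ := eval_prod_real hBr
  -- leading coefficients
  have hlc : B.leadingCoeff ^ 2 * f.leadingCoeff = 1 := by
    have h1 : (F ^ 2 - 4).Monic := by
      refine (hF.pow 2).sub_of_left ?_
      have h2 : (4 : ℂ[X]) = C 4 := rfl
      rw [h2]
      refine degree_C_le.trans_lt ?_
      rw [degree_pow]
      have h3 : 0 < F.degree := natDegree_pos_iff_degree_pos.1 hn
      exact nsmul_pos h3 two_ne_zero
    have h2 := h1.leadingCoeff
    rw [hBf, leadingCoeff_mul, leadingCoeff_pow] at h2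
    exact h2
  set φ : ℝ → ℝ := fun x => (F.eval (x : ℂ)).re with hφ
  have hFφ : ∀ x : ℝ, F.eval (x : ℂ) = (φ x : ℂ) := fun x => eval_real hc x
  have hmain : ∀ x : ℝ, φ x ^ 2 - 4 = ρ x ^ 2 * ∏ i, (x - e i) := by
    intro x
    have h1 := hev (x : ℂ)
    rw [hFφ, hρ, hfe] at h1
    have h2 : ((φ x : ℂ)) ^ 2 - 4 = (ρ x : ℂ) ^ 2 * ((∏ i, (x - e i) : ℝ) : ℂ) := by
      rw [h1]
      linear_combination ((ρ x : ℂ) ^ 2 * ((∏ i, (x - e i) : ℝ) : ℂ)) * hlc
    exact_mod_cast h2
  -- the bad set
  have hd0 : derivative F ≠ 0 := by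
    intro h0
    have := Polynomial.derivative_eq_zero.1 h0
    omega
  have hB0 : B ≠ 0 := by
    rintro rfl
    rw [leadingCoeff_zero] at hlc
    simp at hlc
  have hfinC : ({x : ℂ | B.eval x = 0} ∪ ⋃ y ∈ (derivative F).roots.toFinset,
      {x : ℂ | F.eval x = F.eval y}).Finite := by
    refine Set.Finite.union ?_ ?_
    · refine (B.roots.toFinset.finite_toSet).subset fun z hz => ?_
      simp only [Finset.mem_coe, Multiset.mem_toFinset, mem_roots hB0]
      exact hz
    · refine Set.Finite.biUnion (Finset.finite_toSet _) fun y _ => ?_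
      have hne : F - C (F.eval y) ≠ 0 := by
        intro h0
        have h1 : (F - C (F.eval y)).natDegree = 0 := by rw [h0, natDegree_zero]
        rw [natDegree_sub_C] at h1
        omega
      refine (((F - C (F.eval y)).roots.toFinset.finite_toSet)).subset fun z hz => ?_
      have hz : F.eval z = F.eval y := hz
      simp only [Finset.mem_coe, Multiset.mem_toFinset, mem_roots hne, IsRoot.def, eval_sub,
        eval_C]
      rw [hz, sub_self]
  have hBad : ({x : ℝ | (x : ℂ) ∈ ({x : ℂ | B.eval x = 0} ∪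
      ⋃ y ∈ (derivative F).roots.toFinset, {x : ℂ | F.eval x = F.eval y})}).Finite :=
    hfinC.preimage Complex.ofReal_injective.injOn
  have hex := fun i => exists_between' e he hBad i
  choose p hpB hplt hpgt using hex
  have hpmono : StrictMono p := fun i j hij => (hplt i).trans (hpgt j i hij)
  have hpB1 : ∀ i, B.eval (p i : ℂ) ≠ 0 := fun i h => hpB i (Or.inl h)
  have hpB2 : ∀ i y, F.eval (p i : ℂ) = F.eval y → F.derivative.eval y ≠ 0 := by
    intro i y h h'
    refine hpB i (Or.inr ?_)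
    refine mem_iUnion₂.2 ⟨y, ?_, h⟩
    rw [Multiset.mem_toFinset, mem_roots hd0]
    exact h'
  have hsign : ∀ i, 0 < (-1 : ℝ) ^ (2 * g + 2 - i.val) * (φ (p i) ^ 2 - 4) := by
    intro i
    have h1 : 0 < (-1 : ℝ) ^ (2 * g + 2 - i.val) * ∏ k, (p i - e k) :=
      sign_prod (fun k hk => sub_pos.2 (hpgt i k hk)) fun k hk =>
        sub_neg.2 ((hplt i).trans_le (he.monotone hk))
    have h2 : ρ (p i) ≠ 0 := by
      intro h0
      refine hpB1 i ?_
      rw [hρ, h0, Complex.ofReal_zero, mul_zero]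
    have h3 : 0 < ρ (p i) ^ 2 := by positivity
    rw [hmain]
    have h5 := mul_pos h3 h1
    linarith
  have heven : ∀ i : Fin (2 * g + 2), i.val % 2 = 0 → Out (F.eval (p i : ℂ)) := by
    intro i hi
    have h1 := hsign i
    have h2 : Even (2 * g + 2 - i.val) := by
      rw [Nat.even_iff]
      omega
    rw [h2.neg_one_pow, one_mul] at h1
    right
    have h3 : (2 : ℝ) ^ 2 < φ (p i) ^ 2 := by linarith
    have h4 := sq_lt_sq.1 h3
    rwa [abs_of_pos (by norm_num : (0 : ℝ) < 2)] at h4
  have hodd : ∀ i : Fin (2 * g + 2), i.val % 2 = 1 → Good F (F.eval (p i : ℂ)).re := by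
    intro i hi
    have h1 := hsign i
    have h2 : Odd (2 * g + 2 - i.val) := by
      rw [Nat.odd_iff]
      have := i.isLt
      omega
    rw [h2.neg_one_pow] at h1
    have h3 : φ (p i) ^ 2 < (2 : ℝ) ^ 2 := by linarith
    have h4 := sq_lt_sq.1 h3
    rw [abs_of_pos (by norm_num : (0 : ℝ) < 2)] at h4
    refine ⟨abs_lt.1 h4, fun y hy => hpB2 i y ?_⟩
    rw [hy]
    exact hFφ (p i)
  exact ⟨{
    A := p ⟨0, by omega⟩
    τ := fun j => p ⟨2 * j.val + 2, by omega⟩
    β := fun k => p ⟨2 * k.val + 1, by omega⟩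
    oA := heven _ rfl
    oτ := fun j => heven _ (by simp only; omega)
    Aβ := fun k => hpmono (by rw [Fin.lt_def]; simp only; omega)
    τβ := fun j k h => hpmono (by
      rw [Fin.lt_def, Fin.val_castSucc] at h
      rw [Fin.lt_def]; simp only; omega)
    βτ := fun k j h => hpmono (by
      rw [Fin.le_def, Fin.val_castSucc] at h
      rw [Fin.lt_def]; simp only; omega)
    dA := hpB2 _ _ rfl
    dτ := fun j => hpB2 _ _ rfl
    gβ := fun k => hodd _ (by simp only; omega) }⟩

end Pool.Agent.E8helper67.TR
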