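import Pool.Agent.TH826.UH.Tor
set_option autoImplicit false

/-!
The hypothesis on the polynomial and the property of the families of symbols in the final theorem.
-/

namespace Pool.Agent.E8helper67.TR

open Polynomial

open scoped ComplexConjugate

open Pool.Agent.TH826.MK (KQ symb Torus Unramified)

open Pool.Agent.TH826.HD (PRing POpen pent toP pcst ppol)

/-- All complex solutions of `F(x) = t`, `t` real, `|t| ≤ 2`, are real. -/
def RealOver (F : ℂ[X]) : Prop :=
  ∀ t : ℝ, |t| ≤ 2 → ∀ x : ℂ, F.eval x = t → x.im = 0

/-- The extension `L` of `K` is real over all real places of `K` at which the level sets of `F` over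
`[-2, 2]` are real. In particular, if `K` is totally real and if this holds for all places of `K`,
then `L` is totally real. -/
def RealExt {K : Type*} [Field K] (F : K[X]) (L : Type*) [Field L] [Algebra K L] : Prop :=
  ∀ ν : L →+* ℂ, (∀ x : K, (ν (algebraMap K L x)).im = 0) →
    RealOver (F.map (ν.comp (algebraMap K L))) → ∀ y : L, (ν y).im = 0

/-- There are `M * N` loops in the complex points of the open part of the curve, `N` of them over
each of the embeddings `σ_i`, on which the `M * N` symbols `{z, (x - b_k) / (x - b_0)}` have
regulators with nonvanishing determinant. The loops lie in the region `G'(x) ≠ 0`, where the plane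
curve `z² - G(x) z + 1 = 0` is smooth, so they are loops on the smooth projective curve. Complex
conjugation of the coordinates reverses the direction of each of these loops, so the class of each
of them in the first homology lies in the part where complex conjugation acts by `-1`. -/
def ConjRegIndep {L : Type*} [Field L] (G : L[X]) {M N : ℕ} (b : Fin (M * N + 1) → L)
    (σ : Fin M → (L →+* ℂ)) : Prop :=
  ∃ Γ : Fin (M * N) → Torus (POpen G b) 1,
    (∀ l θ (y : L), (Γ l).e θ (pcst G b y) = σ l.divNat y) ∧
    (∀ l θ, (Γ l).e θ (toP G b (ppol G (derivative G))) ≠ 0) ∧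
    (∀ l θ (r : POpen G b), (Γ l).e (-θ) r = conj ((Γ l).e θ r)) ∧
    (Matrix.of fun l k : Fin (M * N) => (Γ l).reg (symb (pent G b k.succ 0))).det ≠ 0

end Pool.Agent.E8helper67.TR
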