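import Pool.Agent.E8helper67.TR.Jouk
import Pool.Agent.E8helper67.TR.Def
set_option autoImplicit false

/-!
The circles around initial parts of the bands.
-/

namespace Pool.Agent.E8helper67.TR

open Polynomial MeasureTheory Set Filter Topology

open Pool.Agent.E8helper67.PS

theorem RealOver.out {F : ℂ[X]} (h : RealOver F) {x : ℂ} (hx : x.im ≠ 0) : Out (F.eval x) :=
  out_of_ne fun t ht h0 => hx (h t ht x h0)

/-- the centre of the circle over the diameter `[A, τ]` -/
noncomputable def cen (A τ : ℝ) : ℝ := (A + τ) / 2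

/-- the radius of the circle over the diameter `[A, τ]` -/
noncomputable def rad (A τ : ℝ) : ℝ := (τ - A) / 2

/-- the circle over the diameter `[A, τ]` -/
noncomputable def cx (A τ : ℝ) (t : ℝ) : ℂ := circleMap (cen A τ) (rad A τ) (2 * Real.pi * t)

theorem cx_add (A τ t : ℝ) : cx A τ (t + 1) = cx A τ t := by
  unfold cx
  rw [mul_add, mul_one]
  exact periodic_circleMap _ _ _

theorem contDiff_cx (A τ : ℝ) {n : WithTop ℕ∞} : ContDiff ℝ n (cx A τ) :=
  (contDiff_circleMap _ _).comp (contDiff_const.mul contDiff_id)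

theorem cx_dist {A τ : ℝ} (h : A ≤ τ) (t : ℝ) : ‖cx A τ t - cen A τ‖ = rad A τ := by
  have h0 : 0 ≤ rad A τ := by unfold rad; linarith
  have h1 := circleMap_mem_sphere (cen A τ : ℂ) h0 (2 * Real.pi * t)
  rw [mem_sphere_iff_norm] at h1
  exact h1

/-- a real point on the circle -/
theorem real_dist {A τ : ℝ} (b : ℝ) : ‖(b : ℂ) - cen A τ‖ = |b - cen A τ| := by
  rw [← Complex.ofReal_sub, Complex.norm_real, Real.norm_eq_abs]

theorem cx_real {A τ : ℝ} (h : A ≤ τ) {t : ℝ} (ht : (cx A τ t).im = 0) :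
    cx A τ t = A ∨ cx A τ t = τ := by
  have h1 := cx_dist h t
  obtain ⟨b, hb⟩ : ∃ b : ℝ, cx A τ t = b := ⟨(cx A τ t).re, by
    apply Complex.ext <;> simp [ht]⟩
  rw [hb, real_dist] at h1
  rw [hb]
  have h0 : 0 ≤ rad A τ := by unfold rad; linarith
  rcases abs_eq h0 |>.1 h1 with h2 | h2
  · right
    rw [Complex.ofReal_inj]
    unfold cen rad at h2
    linarith
  · left
    rw [Complex.ofReal_inj]
    unfold cen rad at h2
    linarith

/-- admissible diameters -/
structure Adm (F : ℂ[X]) (A τ : ℝ) : Prop where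
  lt : A < τ
  oA : Out (F.eval (A : ℂ))
  oτ : Out (F.eval (τ : ℂ))

section

variable {F : ℂ[X]} (hF : RealOver F) {A τ : ℝ} (h : Adm F A τ)

include hF h

theorem cx_out (t : ℝ) : Out (F.eval (cx A τ t)) := by
  by_cases ht : (cx A τ t).im = 0
  · rcases cx_real h.lt.le ht with h1 | h1
    · rw [h1]
      exact h.oA
    · rw [h1]
      exact h.oτ
  · exact hF.out ht

omit hF h in
theorem contDiffAt_J {w : ℂ} (hw : Out w) : ContDiffAt ℝ 2 J w := by
  have h1 : DifferentiableOn ℂ J {w | Out w} := fun v hv =>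
    (differentiableAt_J hv).differentiableWithinAt
  exact ((h1.analyticAt (isOpen_out.mem_nhds hw)).contDiffAt (n := 2)).restrict_scalars ℝ

/-- the loop over the circle -/
noncomputable def loop : Lp F where
  x := cx A τ
  z := fun t => J (F.eval (cx A τ t))
  hx := contDiff_cx A τ
  hz := by
    rw [contDiff_iff_contDiffAt]
    intro t
    have h1 : ContDiffAt ℝ 2 (fun t => F.eval (cx A τ t)) t := by
      have h2 : ContDiff ℝ 2 (fun x : ℂ => F.eval x) :=
        (F.differentiable.contDiff (n := 2)).restrict_scalars ℝ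
      exact (h2.comp (contDiff_cx A τ)).contDiffAt
    exact (contDiffAt_J (cx_out hF h t)).comp t h1
  px := cx_add A τ
  pz := fun t => by simp only [cx_add]
  eq := fun t => J_eq (cx_out hF h t)

omit h in
/-- the form `dz / z` -/
noncomputable def _root_.Pool.Agent.E8helper67.TR.Om (F : ℂ[X]) (x : ℂ) : ℂ :=
  F.derivative.eval x / yy (F.eval x)

theorem loop_ell (t : ℝ) : (loop hF h).ell t = Om F (cx A τ t) * deriv (cx A τ) t := by
  have hw := cx_out hF h t
  have h1 : HasDerivAt (cx A τ) (deriv (cx A τ) t) t :=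
    ((contDiff_cx A τ (n := 1)).differentiable (by norm_num) t).hasDerivAt
  have h2 : HasDerivAt (fun t => F.eval (cx A τ t))
      (F.derivative.eval (cx A τ t) * deriv (cx A τ) t) t :=
    (F.hasDerivAt (cx A τ t)).comp_of_eq t h1 rfl
  have h3 : HasDerivAt (fun t => J (F.eval (cx A τ t)))
      (J (F.eval (cx A τ t)) / yy (F.eval (cx A τ t)) *
        (F.derivative.eval (cx A τ t) * deriv (cx A τ) t)) t :=
    (hasDerivAt_J hw).comp_of_eq t h2 rfl
  show deriv (fun t => J (F.eval (cx A τ t))) t / J (F.eval (cx A τ t)) = _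
  rw [h3.deriv]
  unfold Om
  have h4 := J_ne hw
  have h5 := yy_ne hw
  field_simp

theorem loop_W (b : ℂ) : (loop hF h).W b = ∮ x in C(cen A τ, rad A τ), Om F x / (x - b) := by
  unfold Lp.W
  have h1 : ∀ t : ℝ, (loop hF h).ell t / ((loop hF h).x t - b) =
      (2 * Real.pi : ℝ) • ((fun θ : ℝ => deriv (circleMap (cen A τ : ℂ) (rad A τ)) θ •
        (Om F (circleMap (cen A τ) (rad A τ) θ) / (circleMap (cen A τ) (rad A τ) θ - b)))
          (2 * Real.pi * t)) := by
    intro t
    rw [loop_ell]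
    have h2 : deriv (cx A τ) t =
        (2 * Real.pi : ℝ) * deriv (circleMap (cen A τ : ℂ) (rad A τ)) (2 * Real.pi * t) := by
      have h3 : HasDerivAt (fun t : ℝ => 2 * Real.pi * t) (2 * Real.pi * 1) t :=
        (hasDerivAt_id t).const_mul _
      have h4 := (hasDerivAt_circleMap (cen A τ : ℂ) (rad A τ) (2 * Real.pi * t)).scomp t h3
      have h5 : deriv (cx A τ) t = (2 * Real.pi * 1) •
          (circleMap 0 (rad A τ) (2 * Real.pi * t) * Complex.I) := h4.deriv
      rw [h5, deriv_circleMap, mul_one, Complex.real_smul]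
    rw [h2]
    show Om F (cx A τ t) * _ / (cx A τ t - b) = _
    simp only [smul_eq_mul, Complex.real_smul]
    unfold cx
    ring
  simp only [h1]
  rw [intervalIntegral.integral_smul]
  rw [intervalIntegral.integral_comp_mul_left (fun θ : ℝ =>
    deriv (circleMap (cen A τ : ℂ) (rad A τ)) θ • (Om F (circleMap (cen A τ) (rad A τ) θ) /
      (circleMap (cen A τ) (rad A τ) θ - b))) (by positivity : (2 * Real.pi : ℝ) ≠ 0)]
  rw [smul_smul, mul_inv_cancel₀ (by positivity : (2 * Real.pi : ℝ) ≠ 0), one_smul, mul_zero,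
    mul_one]
  rfl

end

end Pool.Agent.E8helper67.TR
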