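import Pool.Agent.E8helper67.TR.Real
set_option autoImplicit false

/-!
The regulators of the nested circles are independent on the real bands.
-/

namespace Pool.Agent.E8helper67.TR

open Polynomial MeasureTheory Set Filter Topology

open Pool.Agent.E8helper67.PS

section Comb

variable {F : ℂ[X]} {m : ℕ} (γ : Fin m → Lp F) (c : Fin m → ℝ)

/-- the combination of the regulator functions -/
noncomputable def Phc (b : ℂ) : ℝ := ∑ j, c j * (γ j).Phi b

/-- the combination of the functions `W` -/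
noncomputable def Wc (b : ℂ) : ℂ := ∑ j, (c j : ℂ) * (γ j).W b

/-- If the regulator is constant along the real fibre, then `W / F'` is real. -/
theorem im_zero {t₀ : ℝ} (h : Good F t₀) {x₀ : ℂ} (hx : F.eval x₀ = t₀)
    (hoff : ∀ j, (γ j).Off x₀)
    (hc : ∀ ψ : ℂ → ℂ, ContinuousAt ψ t₀ → ψ t₀ = x₀ → (∀ᶠ t in 𝓝 (t₀ : ℂ), F.eval (ψ t) = t) →
      ∀ᶠ t : ℝ in 𝓝 t₀, Phc γ c (ψ t) = Phc γ c x₀) :
    (Wc γ c x₀ / F.derivative.eval x₀).im = 0 := by
  have hF' := h.2 x₀ hx
  obtain ⟨ψ, hψ0, hψd, hψ⟩ := exists_inv F hF'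
  rw [hx] at hψ0 hψd hψ
  have hev := hc ψ hψd.continuousAt hψ0 hψ
  have hG : ∀ j, ∃ G : ℂ → ℂ, HasDerivAt G ((γ j).W x₀) x₀ ∧
      ∀ᶠ b in 𝓝 x₀, (γ j).Phi b = (γ j).Phi x₀ + (G b).im := fun j =>
    (γ j).exists_prim (hoff j)
  choose G hGd hG using hG
  set Gc : ℂ → ℂ := fun b => ∑ j, (c j : ℂ) * G j b with hGc
  have hGcd : HasDerivAt Gc (Wc γ c x₀) x₀ := by
    unfold Wc
    exact HasDerivAt.fun_sum fun j _ => (hGd j).const_mul _
  have h1 : ∀ᶠ b in 𝓝 x₀, Phc γ c b = Phc γ c x₀ + (Gc b).im := by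
    filter_upwards [eventually_all.2 hG] with b hb
    unfold Phc
    simp only [hGc]
    rw [Complex.im_sum, ← Finset.sum_add_distrib]
    refine Finset.sum_congr rfl fun j _ => ?_
    rw [hb j, Complex.im_ofReal_mul]
    ring
  have hψc : Tendsto (fun t : ℝ => ψ t) (𝓝 t₀) (𝓝 x₀) := by
    have h2 : Tendsto ψ (𝓝 (t₀ : ℂ)) (𝓝 x₀) := by
      have := hψd.continuousAt.tendsto
      rwa [hψ0] at this
    exact h2.comp (Complex.continuous_ofReal.tendsto t₀)
  have h2 : ∀ᶠ t : ℝ in 𝓝 t₀, (Gc (ψ t)).im = 0 := by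
    filter_upwards [hψc.eventually h1, hev] with t ht ht'
    rw [ht'] at ht
    linarith
  have h3 : HasDerivAt (fun t : ℝ => Gc (ψ t)) (Wc γ c x₀ * (F.derivative.eval x₀)⁻¹) t₀ := by
    have h4 : HasDerivAt Gc (Wc γ c x₀) (ψ t₀) := by rw [hψ0]; exact hGcd
    exact (h4.comp (t₀ : ℂ) hψd).comp_ofReal
  have h4 : HasDerivAt (fun t : ℝ => (Gc (ψ t)).im)
      (Wc γ c x₀ * (F.derivative.eval x₀)⁻¹).im t₀ :=
    Complex.imCLM.hasFDerivAt.comp_hasDerivAt t₀ h3
  have h5 : HasDerivAt (fun t : ℝ => (Gc (ψ t)).im) 0 t₀ :=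
    (hasDerivAt_const t₀ (0 : ℝ)).congr_of_eventuallyEq h2
  rw [div_eq_mul_inv]
  exact h4.unique h5

end Comb

/-- A chain of nested diameters `[A, τ_k]` separated by points `β_k` of the bands. -/
structure Chain (F : ℂ[X]) (g : ℕ) where
  A : ℝ
  τ : Fin g → ℝ
  β : Fin (g + 1) → ℝ
  oA : Out (F.eval (A : ℂ))
  oτ : ∀ k, Out (F.eval (τ k : ℂ))
  Aβ : ∀ k, A < β k
  τβ : ∀ j k, Fin.castSucc j < k → τ j < β k
  βτ : ∀ k j, k ≤ Fin.castSucc j → β k < τ j
  dA : F.derivative.eval (A : ℂ) ≠ 0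
  dτ : ∀ k, F.derivative.eval (τ k : ℂ) ≠ 0
  gβ : ∀ k, Good F (F.eval (β k : ℂ)).re

namespace Chain

variable {F : ℂ[X]} {g : ℕ} (ch : Chain F g) (hF : RealOver F)

theorem adm (k : Fin g) : Adm F ch.A (ch.τ k) :=
  ⟨(ch.Aβ (Fin.castSucc k)).trans (ch.βτ _ _ le_rfl), ch.oA, ch.oτ k⟩

theorem τ_mono : StrictMono ch.τ := by
  intro i j hij
  have h1 := ch.τβ i i.succ Fin.castSucc_lt_succ
  have h2 := ch.βτ i.succ j (by
    rw [Fin.le_def, Fin.val_succ, Fin.val_castSucc]
    exact hij)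
  linarith

/-- the nested circles -/
noncomputable def lp (k : Fin g) : Lp F := loop hF (ch.adm k)

theorem lp_off {t : ℝ} (ht : Good F t) {x : ℂ} (hx : F.eval x = t) (k : Fin g) :
    (ch.lp hF k).Off x :=
  loop_off hF (ch.adm k) (abs_lt.2 ht.1).le hx

/-- The circles do not meet the critical points. -/
theorem lp_der (hn : 0 < F.natDegree) (k : Fin g) (t : ℝ) :
    F.derivative.eval ((ch.lp hF k).x t) ≠ 0 := by
  intro h
  have h1 := hF.der_im hn h
  rcases cx_real (ch.adm k).lt.le (t := t) h1 with h2 | h2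
  · have h3 : (ch.lp hF k).x t = ch.A := h2
    rw [h3] at h
    exact ch.dA h
  · have h3 : (ch.lp hF k).x t = ch.τ k := h2
    rw [h3] at h
    exact ch.dτ k h

/-- the regions -/
def U (k : Fin (g + 1)) : Set ℂ :=
  {b | (∀ j : Fin g, j.castSucc < k → ch.τ j < b.re) ∧
    ∀ j : Fin g, k ≤ j.castSucc → b ∈ Metric.ball (cen ch.A (ch.τ j) : ℂ) (rad ch.A (ch.τ j))}

theorem U_eq (k : Fin (g + 1)) : ch.U k =
    (⋂ j : Fin g, {b : ℂ | j.castSucc < k → ch.τ j < b.re}) ∩
    ⋂ j : Fin g, {b : ℂ | k ≤ j.castSucc →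
      b ∈ Metric.ball (cen ch.A (ch.τ j) : ℂ) (rad ch.A (ch.τ j))} := by
  ext b
  simp only [U, mem_ofPred_eq, mem_inter_iff, mem_iInter]

theorem U_open (k : Fin (g + 1)) : IsOpen (ch.U k) := by
  rw [U_eq]
  refine (isOpen_iInter_of_finite fun j => ?_).inter (isOpen_iInter_of_finite fun j => ?_)
  · by_cases h : j.castSucc < k
    · simp only [h, forall_const]
      exact isOpen_lt continuous_const Complex.continuous_re
    · simp only [h, false_imp_iff]
      exact isOpen_const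
  · by_cases h : k ≤ j.castSucc
    · simp only [h, forall_const]
      exact Metric.isOpen_ball
    · simp only [h, false_imp_iff]
      exact isOpen_const

theorem U_convex (k : Fin (g + 1)) : Convex ℝ (ch.U k) := by
  rw [U_eq]
  refine (convex_iInter fun j => ?_).inter (convex_iInter fun j => ?_)
  · by_cases h : j.castSucc < k
    · simp only [h, forall_const]
      have h5 : IsLinearMap ℝ Complex.re := ⟨fun _ _ => rfl, fun c z => by simp⟩
      exact convex_halfSpace_gt h5 _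
    · simp only [h, false_imp_iff]
      exact convex_univ
  · by_cases h : k ≤ j.castSucc
    · simp only [h, forall_const]
      exact convex_ball _ _
    · simp only [h, false_imp_iff]
      exact convex_univ

/-- real points of the regions -/
theorem mem_U {k : Fin (g + 1)} {b : ℝ} (hA : ch.A < b) (h1 : ∀ j : Fin g, j.castSucc < k → ch.τ j < b)
    (h2 : ∀ j : Fin g, k ≤ j.castSucc → b < ch.τ j) : (b : ℂ) ∈ ch.U k := by
  refine ⟨fun j hj => ?_, fun j hj => ?_⟩
  · rw [Complex.ofReal_re]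
    exact h1 j hj
  · rw [mem_ball_iff_norm, real_dist]
    have := h2 j hj
    unfold cen rad
    rw [abs_lt]
    constructor <;> linarith

theorem β_mem (k : Fin (g + 1)) : (ch.β k : ℂ) ∈ ch.U k :=
  ch.mem_U (ch.Aβ k) (fun j hj => ch.τβ j k hj) fun j hj => ch.βτ k j hj

theorem U_off {k : Fin (g + 1)} {b : ℂ} (hb : b ∈ ch.U k) (j : Fin g) : (ch.lp hF j).Off b := by
  intro t ht
  have h1 := cx_dist (ch.adm j).lt.le t
  have ht : cx ch.A (ch.τ j) t = b := ht
  rw [ht] at h1
  rcases lt_or_ge j.castSucc k with h | h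
  · have h2 := hb.1 j h
    have h3 := Complex.abs_re_le_norm (b - cen ch.A (ch.τ j))
    rw [h1, Complex.sub_re, Complex.ofReal_re] at h3
    have h4 := (abs_le.1 h3).2
    unfold cen rad at h4
    linarith
  · have h2 := hb.2 j h
    rw [mem_ball_iff_norm] at h2
    linarith

variable (c : Fin g → ℝ)

/-- the vanishing of `W` on the regions -/
theorem W_zero (hc : F.map (starRingEnd ℂ) = F) (hn : 0 < F.natDegree)
    (him : ∀ t, Good F t → ∀ x, F.eval x = t →
      (Wc (ch.lp hF) c x / F.derivative.eval x).im = 0) (k : Fin (g + 1)) {b : ℂ}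
    (hb : b ∈ ch.U k) : Wc (ch.lp hF) c b = 0 := by
  -- on the reals
  have hre : ∀ b : ℝ, Good F (F.eval (b : ℂ)).re → Wc (ch.lp hF) c b = 0 := by
    intro b hb
    have hb' : F.eval (b : ℂ) = ((F.eval (b : ℂ)).re : ℂ) := eval_real hc b
    have h1 := him _ hb b hb'
    have h2 : F.derivative.eval (b : ℂ) ≠ 0 := hb.2 _ hb'
    have h3 : F.derivative.eval (b : ℂ) = ((F.derivative.eval (b : ℂ)).re : ℂ) :=
      eval_real (der_conj hc) b
    have h4 : (Wc (ch.lp hF) c b).re = 0 := by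
      unfold Wc
      rw [Complex.re_sum]
      refine Finset.sum_eq_zero fun j _ => ?_
      rw [Complex.re_ofReal_mul]
      have h5 : ((ch.lp hF j).W b).re = 0 := loop_W_re hF (ch.adm j) hc b
      rw [h5, mul_zero]
    have h6 : (F.derivative.eval (b : ℂ)).re ≠ 0 := by
      intro h0
      rw [h0, Complex.ofReal_zero] at h3
      exact h2 h3
    rw [h3, Complex.div_ofReal_im] at h1
    have h7 : (Wc (ch.lp hF) c b).im = 0 := by
      rcases div_eq_zero_iff.1 h1 with h | h
      · exact h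
      · exact absurd h h6
    exact Complex.ext h4 h7
  have hdiff : DifferentiableOn ℂ (Wc (ch.lp hF) c) (ch.U k) := by
    intro b hb
    refine DifferentiableAt.differentiableWithinAt ?_
    unfold Wc
    exact DifferentiableAt.fun_sum fun j _ =>
      (((ch.lp hF j).hasDerivAt_W (ch.U_off hF hb j)).differentiableAt).const_mul _
  have han := hdiff.analyticOnNhd (ch.U_open k)
  refine han.eqOn_zero_of_preconnected_of_frequently_eq_zero (ch.U_convex k).isPreconnected
    (ch.β_mem k) ?_ hb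
  -- good points accumulate
  have hcont : Continuous fun b : ℝ => (F.eval (b : ℂ)).re :=
    Complex.continuous_re.comp (F.continuous.comp Complex.continuous_ofReal)
  have hev : ∀ᶠ b : ℝ in 𝓝 (ch.β k), Wc (ch.lp hF) c b = 0 :=
    (hcont.continuousAt.eventually ((good_open hn).mem_nhds (ch.gβ k))).mono fun b hb => hre b hb
  have htd : Tendsto (fun b : ℝ => (b : ℂ)) (𝓝[≠] (ch.β k)) (𝓝[≠] (ch.β k : ℂ)) := by
    refine tendsto_nhdsWithin_iff.2 ⟨?_, ?_⟩
    · exact (Complex.continuous_ofReal.tendsto _).mono_left nhdsWithin_le_nhds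
    · filter_upwards [self_mem_nhdsWithin] with b hb
      intro h
      exact hb (Complex.ofReal_injective h)
  exact htd.frequently (hev.filter_mono nhdsWithin_le_nhds).frequently

/-- The circles are independent. -/
theorem indep (hc : F.map (starRingEnd ℂ) = F) (hn : 0 < F.natDegree)
    (him : ∀ t, Good F t → ∀ x, F.eval x = t →
      (Wc (ch.lp hF) c x / F.derivative.eval x).im = 0) (j : Fin g) : c j = 0 := by
  classical
  obtain ⟨V, ε, hε, hV, hV1, hV2⟩ := exists_jump hF (ch.adm j)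
  have hV1 : ∀ b : ℝ, ch.τ j < b → (ch.lp hF j).W b = V b := hV1
  have hV2 : ∀ b : ℝ, ch.τ j - ε < b → b < ch.τ j →
      (ch.lp hF j).W b = V b + 2 * Real.pi * Complex.I * Om F b := hV2
  set R : ℂ → ℂ := fun b => ∑ i ∈ Finset.univ.erase j, (c i : ℂ) * (ch.lp hF i).W b with hR
  have hsplit : ∀ b, Wc (ch.lp hF) c b = (c j : ℂ) * (ch.lp hF j).W b + R b := fun b =>
    (Finset.add_sum_erase Finset.univ (fun i => (c i : ℂ) * (ch.lp hF i).W b)
      (Finset.mem_univ j)).symm
  have hRc : ContinuousAt R (ch.τ j) := by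
    refine tendsto_finsetSum _ fun i hi => ?_
    refine ContinuousAt.tendsto (continuousAt_const.mul ?_)
    refine ((ch.lp hF i).hasDerivAt_W ?_).continuousAt
    intro t ht
    have ht : cx ch.A (ch.τ i) t = ch.τ j := ht
    have h0 : (cx ch.A (ch.τ i) t).im = 0 := by rw [ht, Complex.ofReal_im]
    rcases cx_real (ch.adm i).lt.le h0 with h1 | h1
    · rw [ht, Complex.ofReal_inj] at h1
      exact (ch.adm j).lt.ne' h1
    · rw [ht, Complex.ofReal_inj] at h1
      exact (Finset.ne_of_mem_erase hi) (ch.τ_mono.injective h1).symm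
  have hO : ContinuousAt (Om F) (ch.τ j) := (differentiableAt_Om F (ch.oτ j)).continuousAt
  have hcr : Tendsto (fun b : ℝ => (b : ℂ)) (𝓝 (ch.τ j)) (𝓝 (ch.τ j : ℂ)) :=
    Complex.continuous_ofReal.tendsto _
  have hVr := hV.tendsto.comp hcr
  have hRr := hRc.tendsto.comp hcr
  have hOr := hO.tendsto.comp hcr
  -- from the right
  have hright : ∀ᶠ b : ℝ in 𝓝[>] (ch.τ j), (c j : ℂ) * V b + R b = 0 := by
    have h1 : ∀ᶠ b : ℝ in 𝓝[>] (ch.τ j), ∀ i : Fin g, j < i → b < ch.τ i := by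
      rw [eventually_all]
      intro i
      by_cases hij : j < i
      · filter_upwards [nhdsWithin_le_nhds (gt_mem_nhds (ch.τ_mono hij))] with b hb _
        exact hb
      · exact Eventually.of_forall fun b h => absurd h hij
    filter_upwards [h1, self_mem_nhdsWithin] with b hb1 hb2
    have hb2 : ch.τ j < b := hb2
    have hU : (b : ℂ) ∈ ch.U j.succ := by
      refine ch.mem_U ((ch.adm j).lt.trans hb2) (fun i hi => ?_) fun i hi => ?_
      · have h3 : i ≤ j := by
          rw [Fin.lt_def, Fin.val_succ, Fin.val_castSucc] at hi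
          rw [Fin.le_def]
          omega
        exact (ch.τ_mono.monotone h3).trans_lt hb2
      · refine hb1 i ?_
        rw [Fin.le_def, Fin.val_succ, Fin.val_castSucc] at hi
        rw [Fin.lt_def]
        omega
    have h3 := ch.W_zero hF c hc hn him _ hU
    rw [hsplit, hV1 b hb2] at h3
    exact h3
  have hleft : ∀ᶠ b : ℝ in 𝓝[<] (ch.τ j),
      (c j : ℂ) * (V b + 2 * Real.pi * Complex.I * Om F b) + R b = 0 := by
    have h1 : ∀ᶠ b : ℝ in 𝓝[<] (ch.τ j), ∀ i : Fin g, i < j → ch.τ i < b := by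
      rw [eventually_all]
      intro i
      by_cases hij : i < j
      · filter_upwards [nhdsWithin_le_nhds (lt_mem_nhds (ch.τ_mono hij))] with b hb _
        exact hb
      · exact Eventually.of_forall fun b h => absurd h hij
    filter_upwards [h1, self_mem_nhdsWithin, nhdsWithin_le_nhds (lt_mem_nhds (ch.adm j).lt),
      nhdsWithin_le_nhds (lt_mem_nhds (show ch.τ j - ε < ch.τ j by linarith))] with b hb1 hb2 hb3 hb4
    have hb2 : b < ch.τ j := hb2
    have hU : (b : ℂ) ∈ ch.U j.castSucc := by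
      refine ch.mem_U hb3 (fun i hi => hb1 i (Fin.castSucc_lt_castSucc_iff.1 hi)) fun i hi => ?_
      exact hb2.trans_le (ch.τ_mono.monotone (Fin.castSucc_le_castSucc_iff.1 hi))
    have h3 := ch.W_zero hF c hc hn him _ hU
    rw [hsplit, hV2 b hb4 hb2] at h3
    exact h3
  have e1 : (c j : ℂ) * V (ch.τ j) + R (ch.τ j) = 0 := by
    have h1 : Tendsto (fun b : ℝ => (c j : ℂ) * V b + R b) (𝓝[>] (ch.τ j))
        (𝓝 ((c j : ℂ) * V (ch.τ j) + R (ch.τ j))) :=
      ((hVr.const_mul _).add hRr).mono_left nhdsWithin_le_nhds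
    exact tendsto_nhds_unique h1 (tendsto_const_nhds.congr' (hright.mono fun b hb => hb.symm))
  have e2 : (c j : ℂ) * (V (ch.τ j) + 2 * Real.pi * Complex.I * Om F (ch.τ j)) + R (ch.τ j) = 0 := by
    have h1 : Tendsto (fun b : ℝ => (c j : ℂ) * (V b + 2 * Real.pi * Complex.I * Om F b) + R b)
        (𝓝[<] (ch.τ j))
        (𝓝 ((c j : ℂ) * (V (ch.τ j) + 2 * Real.pi * Complex.I * Om F (ch.τ j)) + R (ch.τ j))) :=
      (((hVr.add (hOr.const_mul _)).const_mul _).add hRr).mono_left nhdsWithin_le_nhds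
    exact tendsto_nhds_unique h1 (tendsto_const_nhds.congr' (hleft.mono fun b hb => hb.symm))
  have e3 : (c j : ℂ) * (2 * Real.pi * Complex.I * Om F (ch.τ j)) = 0 := by
    linear_combination e2 - e1
  have hOm : Om F (ch.τ j) ≠ 0 := div_ne_zero (ch.dτ j) (yy_ne (ch.oτ j))
  rcases mul_eq_zero.1 e3 with h | h
  · exact_mod_cast h
  · exfalso
    have hpi : (Real.pi : ℂ) ≠ 0 := by exact_mod_cast Real.pi_ne_zero
    exact (mul_ne_zero (mul_ne_zero (mul_ne_zero two_ne_zero hpi) Complex.I_ne_zero) hOm) h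

end Chain

end Pool.Agent.E8helper67.TR
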