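import Pool.Agent.E8helper67.TR.Bands
import Pool.Agent.E8helper67.PS.Fin
set_option autoImplicit false

/-!
The regulator vectors of the special points span.
-/

namespace Pool.Agent.E8helper67.TR

open Polynomial MeasureTheory Set Filter Topology

open Pool.Agent.E8helper67.PS (Lp Lp.continuousAt_Phi lift_root exists_norm_bound unit_add_inv ex ex_re
  ex_norm exists_dense_ext norm_rootOfUnity exists_inv)

/-- embeddings of the base field and chains of circles for the conjugate polynomials -/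
structure Setup {K : Type*} [Field K] (F : K[X]) (M m : ℕ) where
  s : Fin M → (K →+* ℂ)
  ro : ∀ i, RealOver (F.map (s i))
  ch : ∀ i, Chain (F.map (s i)) m

namespace Setup

variable {K : Type*} [Field K] [NumberField K] {F : K[X]} {M m : ℕ} (P : Setup F M m)

/-- the circles -/
noncomputable def g (i : Fin M) (j : Fin m) : Lp (F.map (P.s i)) := (P.ch i).lp (P.ro i) j

omit [NumberField K] in
theorem off (i : Fin M) {t : ℝ} (ht : Good (F.map (P.s i)) t) {x : ℂ}
    (hx : (F.map (P.s i)).eval x = t) (j : Fin m) : (P.g i j).Off x :=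
  (P.ch i).lp_off (P.ro i) ht hx j

/-- extensions of the embeddings -/
def IsExt (S : Fin M → (AlgebraicClosure K →+* ℂ)) : Prop :=
  ∀ i x, S i (algebraMap K (AlgebraicClosure K) x) = P.s i x

variable {P} {S : Fin M → (AlgebraicClosure K →+* ℂ)}

omit [NumberField K] in
theorem IsExt.eval (hS : P.IsExt S) (i : Fin M) (b : AlgebraicClosure K) :
    (F.map (P.s i)).eval (S i b) =
      S i ((F.map (algebraMap K (AlgebraicClosure K))).eval b) := by
  have h1 : (S i).comp (algebraMap K (AlgebraicClosure K)) = P.s i := RingHom.ext fun x => hS i x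
  rw [eval_map, eval_map, hom_eval₂, h1]

variable (P) in
/-- good special points -/
def Sp (S : Fin M → (AlgebraicClosure K →+* ℂ)) (b : AlgebraicClosure K) : Prop :=
  ∃ ζ : AlgebraicClosure K, (∃ k : ℕ, k ≠ 0 ∧ ζ ^ k = 1) ∧
    (F.map (algebraMap K (AlgebraicClosure K))).eval b = ζ + ζ⁻¹ ∧
    ∀ i, Good (F.map (P.s i)) (2 * (S i ζ).re)

theorem ext_add_inv (i : Fin M) {ζ : AlgebraicClosure K} (hζ : ∃ k : ℕ, k ≠ 0 ∧ ζ ^ k = 1) :
    S i (ζ + ζ⁻¹) = ((2 * (S i ζ).re : ℝ) : ℂ) := by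
  obtain ⟨k, hk, h⟩ := hζ
  rw [map_add, map_inv₀]
  exact unit_add_inv (norm_rootOfUnity (S i) hk h)

variable (P) in
/-- the vector of regulators -/
noncomputable def vec (S : Fin M → (AlgebraicClosure K →+* ℂ)) (b : AlgebraicClosure K) :
    Option (Fin M × Fin m) → ℝ
  | none => 1
  | some p => (P.g p.1 p.2).Phi (S p.1 b)

/-- the coefficients at a place -/
def cc (c : Option (Fin M × Fin m) → ℝ) (i : Fin M) : Fin m → ℝ := fun j => c (some (i, j))

omit [NumberField K] in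
theorem rel_eq (c : Option (Fin M × Fin m) → ℝ) (b : AlgebraicClosure K) :
    ∑ o, c o * P.vec S b o = c none + ∑ i, Phc (P.g i) (cc c i) (S i b) := by
  rw [Fintype.sum_option, Fintype.sum_prod_type]
  simp only [vec, mul_one]
  rfl

/-- the limit of the relations -/
theorem limit (hF : F.Monic) (hn : 0 < F.natDegree)
    {S : ℕ → Fin M → (AlgebraicClosure K →+* ℂ)} (hS : ∀ κ, P.IsExt (S κ))
    (hdense : ∀ κ : ℕ, ∀ w : Fin M → ℂ, (∀ i, ‖w i‖ = 1) → ∃ ζ : AlgebraicClosure K,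
      (∃ k : ℕ, k ≠ 0 ∧ ζ ^ k = 1) ∧ ∀ i, ‖S κ i ζ - w i‖ ≤ 1 / ((κ : ℝ) + 1))
    {c : ℕ → Option (Fin M × Fin m) → ℝ}
    (hc : ∀ κ b, P.Sp (S κ) b → ∑ o, c κ o * P.vec (S κ) b o = 0)
    {c' : Option (Fin M × Fin m) → ℝ}
    (hlim : Tendsto c (Filter.hyperfilter ℕ) (𝓝 c')) {t : Fin M → ℝ}
    (ht : ∀ i, Good (F.map (P.s i)) (t i)) (i₀ : Fin M) {x₀ : ℂ}
    (hx₀ : (F.map (P.s i₀)).eval x₀ = t i₀) :
    ∃ x : Fin M → ℂ, x i₀ = x₀ ∧ (∀ i, (F.map (P.s i)).eval (x i) = t i) ∧
      c' none + ∑ i, Phc (P.g i) (cc c' i) (x i) = 0 := by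
  classical
  have hFm : ∀ i, (F.map (P.s i)).Monic := fun i => hF.map _
  have hFn : ∀ i, 0 < (F.map (P.s i)).natDegree := fun i => by
    rw [natDegree_map_eq_of_injective (P.s i).injective]
    exact hn
  set w : Fin M → ℂ := fun i => ex (Real.arccos (t i / 2)) with hw
  have hwn : ∀ i, ‖w i‖ = 1 := fun i => ex_norm _
  have hwre : ∀ i, 2 * (w i).re = t i := by
    intro i
    have h1 := (ht i).1
    simp only [hw]
    rw [ex_re, Real.cos_arccos (by linarith [h1.1]) (by linarith [h1.2])]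
    ring
  choose ζ hζ1 hζ2 using fun κ => hdense κ w hwn
  set r : ℕ → Fin M → ℝ := fun κ i => 2 * (S κ i (ζ κ)).re with hr
  have hSw : ∀ i, Tendsto (fun κ => S κ i (ζ κ)) atTop (𝓝 (w i)) := by
    intro i
    rw [tendsto_iff_norm_sub_tendsto_zero]
    exact squeeze_zero (fun κ => norm_nonneg _) (fun κ => hζ2 κ i)
      tendsto_one_div_add_atTop_nhds_zero_nat
  have hrt : ∀ i, Tendsto (fun κ => r κ i) atTop (𝓝 (t i)) := by
    intro i
    rw [← hwre i]
    exact ((Complex.continuous_re.tendsto _).comp (hSw i)).const_mul 2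
  have hSr : ∀ κ i, S κ i (ζ κ + (ζ κ)⁻¹) = (r κ i : ℂ) := fun κ i => ext_add_inv i (hζ1 κ)
  have hF' : (F.map (P.s i₀)).derivative.eval x₀ ≠ 0 := (ht i₀).2 x₀ hx₀
  obtain ⟨ψ, hψ0, hψd, hψ⟩ := exists_inv (F.map (P.s i₀)) hF'
  rw [hx₀] at hψ0 hψd hψ
  have hrc : Tendsto (fun κ => ((r κ i₀ : ℝ) : ℂ)) atTop (𝓝 (t i₀ : ℂ)) :=
    (Complex.continuous_ofReal.tendsto _).comp (hrt i₀)
  set y : ℕ → ℂ := fun κ => ψ (r κ i₀) with hy
  have hyl : Tendsto y atTop (𝓝 x₀) := by
    have h1 := hψd.continuousAt.tendsto.comp hrc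
    rw [hψ0] at h1
    exact h1
  have hFy : ∀ᶠ κ in atTop, (F.map (P.s i₀)).eval (y κ) = r κ i₀ := hrc.eventually hψ
  have hb : ∀ κ, ∃ b : AlgebraicClosure K, (F.map (P.s i₀)).eval (y κ) = r κ i₀ →
      S κ i₀ b = y κ ∧ (F.map (algebraMap K (AlgebraicClosure K))).eval b = ζ κ + (ζ κ)⁻¹ := by
    intro κ
    by_cases h : (F.map (P.s i₀)).eval (y κ) = r κ i₀
    · set Q : (AlgebraicClosure K)[X] :=
        F.map (algebraMap K (AlgebraicClosure K)) - C (ζ κ + (ζ κ)⁻¹) with hQ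
      have hQ0 : Q ≠ 0 := by
        intro h0
        have h1 : Q.natDegree = 0 := by rw [h0, natDegree_zero]
        rw [hQ, natDegree_sub_C,
          natDegree_map_eq_of_injective (algebraMap K (AlgebraicClosure K)).injective] at h1
        omega
      have hQy : (Q.map (S κ i₀)).eval (y κ) = 0 := by
        rw [hQ, Polynomial.map_sub, map_C, eval_sub, eval_C, Polynomial.map_map]
        have h1 : (S κ i₀).comp (algebraMap K (AlgebraicClosure K)) = P.s i₀ :=
          RingHom.ext fun x => hS κ i₀ x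
        rw [h1, hSr, h, sub_self]
      obtain ⟨b, hb1, hb2⟩ := lift_root (S κ i₀) hQ0 hQy
      refine ⟨b, fun _ => ⟨hb1, ?_⟩⟩
      rw [hQ, eval_sub, eval_C] at hb2
      exact sub_eq_zero.1 hb2
    · exact ⟨0, fun h' => absurd h' h⟩
  choose b hb using hb
  set x : ℕ → Fin M → ℂ := fun κ i => S κ i (b κ) with hx
  have hFx : ∀ᶠ κ in atTop, ∀ i, (F.map (P.s i)).eval (x κ i) = r κ i := by
    filter_upwards [hFy] with κ hκ i
    simp only [hx]
    rw [(hS κ).eval, (hb κ hκ).2, hSr]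
  have hgood : ∀ᶠ κ in atTop, ∀ i, Good (F.map (P.s i)) (r κ i) := by
    rw [eventually_all]
    intro i
    exact (hrt i).eventually ((good_open (hFn i)).mem_nhds (ht i))
  have hSp : ∀ᶠ κ in atTop, P.Sp (S κ) (b κ) := by
    filter_upwards [hFy, hgood] with κ h1 h2
    exact ⟨ζ κ, hζ1 κ, (hb κ h1).2, h2⟩
  have hU : (Filter.hyperfilter ℕ : Filter ℕ) ≤ atTop := Nat.hyperfilter_le_atTop
  have hxl : ∀ i, ∃ z : ℂ, Tendsto (fun κ => x κ i) (Filter.hyperfilter ℕ) (𝓝 z) := by
    intro i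
    obtain ⟨B, hB⟩ := exists_norm_bound (hFn i)
    have h1 : ∀ᶠ κ in atTop, x κ i ∈ Metric.closedBall (0 : ℂ) B := by
      filter_upwards [hFx, hgood] with κ h1 h2
      rw [mem_closedBall_zero_iff]
      refine hB _ ?_
      rw [h1 i, Complex.norm_real, Real.norm_eq_abs]
      exact (abs_lt.2 (h2 i).1).le
    obtain ⟨z, -, hz⟩ := (isCompact_closedBall (0 : ℂ) B).ultrafilter_le_nhds
      ((Filter.hyperfilter ℕ).map fun κ => x κ i) (le_principal_iff.2 (hU h1))
    exact ⟨z, hz⟩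
  choose z hz using hxl
  have hzF : ∀ i, (F.map (P.s i)).eval (z i) = t i := by
    intro i
    have h1 : Tendsto (fun κ => (F.map (P.s i)).eval (x κ i)) (Filter.hyperfilter ℕ)
        (𝓝 ((F.map (P.s i)).eval (z i))) :=
      ((F.map (P.s i)).continuous.tendsto _).comp (hz i)
    have h2 : Tendsto (fun κ => ((r κ i : ℝ) : ℂ)) (Filter.hyperfilter ℕ) (𝓝 (t i : ℂ)) :=
      ((Complex.continuous_ofReal.tendsto _).comp (hrt i)).mono_left hU
    refine tendsto_nhds_unique h1 (h2.congr' ?_)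
    exact hU (hFx.mono fun κ hκ => (hκ i).symm)
  refine ⟨z, ?_, hzF, ?_⟩
  · refine tendsto_nhds_unique (hz i₀) ((hyl.mono_left hU).congr' ?_)
    exact hU (hFy.mono fun κ hκ => (hb κ hκ).1.symm)
  · have h1 : Tendsto (fun κ => c κ none + ∑ i, Phc (P.g i) (cc (c κ) i) (x κ i))
        (Filter.hyperfilter ℕ) (𝓝 (c' none + ∑ i, Phc (P.g i) (cc c' i) (z i))) := by
      have hcl := tendsto_pi_nhds.1 hlim
      refine (hcl none).add (tendsto_finsetSum _ fun i _ => ?_)
      unfold Phc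
      refine tendsto_finsetSum _ fun j _ => (hcl (some (i, j))).mul ?_
      exact ((P.g i j).continuousAt_Phi
        (P.off i (ht i) (hzF i) j)).tendsto.comp (hz i)
    refine tendsto_nhds_unique h1 (tendsto_const_nhds.congr' ?_)
    refine hU (hSp.mono fun κ hκ => ?_)
    show (0 : ℝ) = c κ none + ∑ i, Phc (P.g i) (cc (c κ) i) (S κ i (b κ))
    rw [← rel_eq]
    exact (hc κ _ hκ).symm

omit [NumberField K] in
/-- all coefficients vanish -/
theorem coef_zero (hF : F.Monic) (hn : 0 < F.natDegree) (hM : 0 < M)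
    {c' : Option (Fin M × Fin m) → ℝ}
    (hrel : ∀ t : Fin M → ℝ, (∀ i, Good (F.map (P.s i)) (t i)) → ∀ (i₀ : Fin M) (x₀ : ℂ),
      (F.map (P.s i₀)).eval x₀ = t i₀ →
      ∃ x : Fin M → ℂ, x i₀ = x₀ ∧ (∀ i, (F.map (P.s i)).eval (x i) = t i) ∧
        c' none + ∑ i, Phc (P.g i) (cc c' i) (x i) = 0) : c' = 0 := by
  classical
  have hFm : ∀ i, (F.map (P.s i)).Monic := fun i => hF.map _
  have hFn : ∀ i, 0 < (F.map (P.s i)).natDegree := fun i => by
    rw [natDegree_map_eq_of_injective (P.s i).injective]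
    exact hn
  have hgood : ∀ i, ∃ t, Good (F.map (P.s i)) t := fun i =>
    (good_infinite (hFn i)).nonempty
  choose ts hts using hgood
  have hsome : ∀ i j, c' (some (i, j)) = 0 := by
    intro i₀ j
    refine (P.ch i₀).indep (P.ro i₀) (cc c' i₀) ((P.ro i₀).map_conj (hFm i₀)) (hFn i₀) ?_ j
    intro t₀ ht₀ x₀ hx₀
    refine im_zero (P.g i₀) (cc c' i₀) ht₀ hx₀ (fun j => P.off i₀ ht₀ hx₀ j) fun ψ hψc hψ0 hψ => ?_
    -- the finite set of values
    set A : Set (Fin M → ℂ) := Set.pi univ fun i =>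
      if i = i₀ then {0} else {z | (F.map (P.s i)).eval z = ts i} with hA
    have hAf : A.Finite := by
      refine Set.Finite.pi fun i => ?_
      split_ifs with h
      · exact Set.finite_singleton 0
      · have hne : F.map (P.s i) - C (ts i : ℂ) ≠ 0 := by
          intro h0
          have h1 : (F.map (P.s i) - C (ts i : ℂ)).natDegree = 0 := by rw [h0, natDegree_zero]
          rw [natDegree_sub_C] at h1
          have := hFn i
          omega
        refine ((F.map (P.s i) - C (ts i : ℂ)).roots.toFinset.finite_toSet).subset fun z hz => ?_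
        simp only [Finset.mem_coe, Multiset.mem_toFinset, mem_roots hne, IsRoot.def, eval_sub,
          eval_C]
        exact sub_eq_zero.2 hz
    set V : Set ℝ := (fun x : Fin M → ℂ =>
      -(c' none + ∑ i ∈ Finset.univ.erase i₀, Phc (P.g i) (cc c' i) (x i))) '' A with hV
    have hVf : V.Finite := hAf.image _
    have hmem : ∀ t, Good (F.map (P.s i₀)) t → ∀ x, (F.map (P.s i₀)).eval x = t →
        Phc (P.g i₀) (cc c' i₀) x ∈ V := by
      intro t ht x hx
      obtain ⟨z, hz0, hz, hz'⟩ := hrel (Function.update ts i₀ t) (by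
        intro i
        by_cases h : i = i₀
        · subst h
          rw [Function.update_self]
          exact ht
        · rw [Function.update_of_ne h]
          exact hts i) i₀ x (by rw [Function.update_self]; exact hx)
      refine ⟨Function.update z i₀ 0, ?_, ?_⟩
      · rw [hA, Set.mem_univ_pi]
        intro i
        by_cases h : i = i₀
        · rw [if_pos h, h, Function.update_self]
          exact Set.mem_singleton _
        · rw [if_neg h, Function.update_of_ne h]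
          have := hz i
          rwa [Function.update_of_ne h] at this
      · rw [← Finset.add_sum_erase Finset.univ _ (Finset.mem_univ i₀), hz0] at hz'
        have h1 : ∑ i ∈ Finset.univ.erase i₀, Phc (P.g i) (cc c' i) (Function.update z i₀ 0 i) =
            ∑ i ∈ Finset.univ.erase i₀, Phc (P.g i) (cc c' i) (z i) :=
          Finset.sum_congr rfl fun i hi => by
            rw [Function.update_of_ne (Finset.ne_of_mem_erase hi)]
        simp only [h1]
        linarith
    have hcont : ContinuousAt (Phc (P.g i₀) (cc c' i₀)) x₀ := by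
      unfold Phc
      exact tendsto_finsetSum _ fun j _ => ((P.g i₀ j).continuousAt_Phi
        (P.off i₀ ht₀ hx₀ j)).tendsto.const_mul _
    have hψl : Tendsto (fun t : ℝ => ψ t) (𝓝 t₀) (𝓝 x₀) := by
      have h2 : Tendsto ψ (𝓝 (t₀ : ℂ)) (𝓝 x₀) := by
        have := hψc.tendsto
        rwa [hψ0] at this
      exact h2.comp (Complex.continuous_ofReal.tendsto t₀)
    have h3 : Tendsto (fun t : ℝ => Phc (P.g i₀) (cc c' i₀) (ψ t)) (𝓝 t₀)
        (𝓝 (Phc (P.g i₀) (cc c' i₀) x₀)) := hcont.tendsto.comp hψl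
    have h4 : (V \ {Phc (P.g i₀) (cc c' i₀) x₀})ᶜ ∈ 𝓝 (Phc (P.g i₀) (cc c' i₀) x₀) := by
      refine (hVf.subset Set.sdiff_subset).isClosed.isOpen_compl.mem_nhds ?_
      intro h
      exact h.2 (Set.mem_singleton _)
    filter_upwards [h3 h4, (good_open (hFn i₀)).mem_nhds ht₀,
      (Complex.continuous_ofReal.tendsto t₀).eventually hψ] with t h5 h6 h7
    by_contra h8
    exact h5 ⟨hmem t h6 _ h7, h8⟩
  have hi₀ : Fin M := ⟨0, hM⟩
  obtain ⟨x₀, hx₀⟩ := IsAlgClosed.exists_root (F.map (P.s hi₀) - C (ts hi₀ : ℂ)) (by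
    rw [degree_sub_C (natDegree_pos_iff_degree_pos.1 (hFn hi₀))]
    exact (natDegree_pos_iff_degree_pos.1 (hFn hi₀)).ne')
  rw [IsRoot.def, eval_sub, eval_C, sub_eq_zero] at hx₀
  obtain ⟨x, -, -, hx⟩ := hrel ts hts hi₀ x₀ hx₀
  have h1 : ∑ i, Phc (P.g i) (cc c' i) (x i) = 0 := by
    refine Finset.sum_eq_zero fun i _ => ?_
    unfold Phc cc
    refine Finset.sum_eq_zero fun j _ => ?_
    rw [hsome, zero_mul]
  rw [h1, add_zero] at hx
  funext o
  rcases o with _ | ⟨i, j⟩
  · exact hx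
  · exact hsome i j

/-- The regulator vectors of the special points span for suitable extensions. -/
theorem exists_span (hF : F.Monic) (hn : 0 < F.natDegree) (hM : 0 < M) :
    ∃ S : Fin M → (AlgebraicClosure K →+* ℂ), P.IsExt S ∧
      Submodule.span ℝ {v | ∃ b, P.Sp S b ∧ P.vec S b = v} = ⊤ := by
  classical
  by_contra hcon
  push Not at hcon
  have h1 : ∀ κ : ℕ, ∃ S : Fin M → (AlgebraicClosure K →+* ℂ), P.IsExt S ∧
      (∀ w : Fin M → ℂ, (∀ i, ‖w i‖ = 1) → ∃ ζ : AlgebraicClosure K,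
        (∃ k : ℕ, k ≠ 0 ∧ ζ ^ k = 1) ∧ ∀ i, ‖S i ζ - w i‖ ≤ 1 / ((κ : ℝ) + 1)) ∧
      ∃ c : Option (Fin M × Fin m) → ℝ, ‖c‖ = 1 ∧
        ∀ b, P.Sp S b → ∑ o, c o * P.vec S b o = 0 := by
    intro κ
    obtain ⟨S, hS, Z, hZ, hd⟩ := exists_dense_ext M P.s (1 / ((κ : ℝ) + 1)) (by positivity)
    refine ⟨S, hS, fun w hw => ?_, ?_⟩
    · obtain ⟨ζ, hζ, h⟩ := hd w hw
      exact ⟨ζ, hZ ζ hζ, h⟩
    · obtain ⟨f, hf, hle⟩ := Submodule.exists_le_ker_of_lt_top _ (lt_top_iff_ne_top.2 (hcon S hS))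
      set c₀ : Option (Fin M × Fin m) → ℝ := fun o => f fun j => if o = j then 1 else 0 with hc₀
      have hfc : ∀ v, f v = ∑ o, c₀ o * v o := by
        intro v
        rw [LinearMap.pi_apply_eq_sum_univ f v]
        exact Finset.sum_congr rfl fun o _ => by rw [smul_eq_mul, mul_comm]
      have hc0 : c₀ ≠ 0 := by
        intro h0
        apply hf
        ext1 v
        have h2 : f = 0 := by
          refine LinearMap.ext fun v => ?_
          rw [hfc, h0]
          simp
        rw [h2]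
      have hc0' : ‖c₀‖ ≠ 0 := norm_ne_zero_iff.2 hc0
      refine ⟨‖c₀‖⁻¹ • c₀, ?_, fun b hb => ?_⟩
      · rw [norm_smul, norm_inv, norm_norm, inv_mul_cancel₀ hc0']
      · have h2 : f (P.vec S b) = 0 :=
          hle (Submodule.subset_span ⟨b, hb, rfl⟩)
        rw [hfc] at h2
        simp only [Pi.smul_apply, smul_eq_mul, mul_assoc]
        rw [← Finset.mul_sum, h2, mul_zero]
  choose S hS hd c hc1 hc2 using h1
  have hsph : ∀ κ, c κ ∈ Metric.sphere (0 : Option (Fin M × Fin m) → ℝ) 1 := fun κ => by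
    rw [mem_sphere_zero_iff_norm]
    exact hc1 κ
  obtain ⟨c', hc', hlim⟩ := (isCompact_sphere (0 : Option (Fin M × Fin m) → ℝ) 1).ultrafilter_le_nhds
    ((Filter.hyperfilter ℕ).map c) (le_principal_iff.2 (by
      rw [Ultrafilter.coe_map]
      exact Filter.mem_map.2 (Filter.univ_mem' hsph)))
  have h0 := coef_zero (P := P) (c' := c') hF hn hM fun t ht i₀ x₀ hx₀ =>
    limit (c := c) hF hn hS hd hc2 hlim ht i₀ hx₀
  rw [h0, mem_sphere_zero_iff_norm, norm_zero] at hc'
  exact zero_ne_one hc'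

end Setup

end Pool.Agent.E8helper67.TR
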