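import Pool.Agent.E8helper67.PS.Loop
set_option autoImplicit false

/-!
The inverse of `z ↦ z + 1/z` on the complement of `[-2, 2]`, and the circles around initial parts of
the bands.
-/

namespace Pool.Agent.E8helper67.TR

open Polynomial MeasureTheory Set Filter Topology

open Pool.Agent.E8helper67.PS

/-- the complement of `[-2, 2]` -/
def Out (w : ℂ) : Prop := w.im ≠ 0 ∨ 2 < |w.re|

theorem Out.ne_real {w : ℂ} (h : Out w) {t : ℝ} (ht : |t| ≤ 2) : w ≠ t := by
  rintro rfl
  rcases h with h | h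
  · simp at h
  · rw [Complex.ofReal_re] at h
    linarith

theorem out_of_ne {w : ℂ} (h : ∀ t : ℝ, |t| ≤ 2 → w ≠ t) : Out w := by
  by_contra hcon
  unfold Out at hcon
  push Not at hcon
  refine h w.re hcon.2 ?_
  apply Complex.ext <;> simp [hcon.1]

theorem Out.ne {w : ℂ} (h : Out w) : w ≠ 0 := by
  have := h.ne_real (t := 0) (by norm_num)
  simpa using this

theorem Out.slit {w : ℂ} (h : Out w) : 1 - 4 / w ^ 2 ∈ Complex.slitPlane := by
  by_contra hcon
  rw [Complex.mem_slitPlane_iff] at hcon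
  push Not at hcon
  obtain ⟨h1, h2⟩ := hcon
  have hw := h.ne
  set s : ℝ := (1 - 4 / w ^ 2).re with hs
  have e1 : (1 - 4 / w ^ 2 : ℂ) = (s : ℂ) := by
    apply Complex.ext
    · rw [Complex.ofReal_re]
    · rw [Complex.ofReal_im]
      exact h2
  have hs1 : 0 < 1 - s := by linarith
  have hs1' : ((1 - s : ℝ) : ℂ) ≠ 0 := by
    rw [Ne, Complex.ofReal_eq_zero]
    exact hs1.ne'
  have e2 : w ^ 2 = ((4 / (1 - s) : ℝ) : ℂ) := by
    have e3 : (4 : ℂ) / w ^ 2 = ((1 - s : ℝ) : ℂ) := by
      push_cast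
      linear_combination -e1
    rw [div_eq_iff (pow_ne_zero 2 hw)] at e3
    push_cast
    push_cast at e3 hs1'
    rw [eq_div_iff hs1']
    linear_combination -e3
  have hq : 0 < 4 / (1 - s) := by positivity
  have hq4 : 4 / (1 - s) ≤ 4 := by
    rw [div_le_iff₀ hs1]
    linarith
  have e4 : w ^ 2 = ((Real.sqrt (4 / (1 - s)) : ℝ) : ℂ) ^ 2 := by
    rw [e2, ← Complex.ofReal_pow, Real.sq_sqrt hq.le]
  have hr : |Real.sqrt (4 / (1 - s))| ≤ 2 := by
    rw [abs_of_nonneg (Real.sqrt_nonneg _)]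
    exact Real.sqrt_le_iff.2 ⟨by norm_num, by linarith⟩
  rcases sq_eq_sq_iff_eq_or_eq_neg.1 e4 with h5 | h5
  · exact h.ne_real hr h5
  · refine h.ne_real (t := -Real.sqrt (4 / (1 - s))) ?_ ?_
    · rw [abs_neg]
      exact hr
    · rw [h5]
      push_cast
      ring

theorem isOpen_out : IsOpen {w : ℂ | Out w} := by
  have h1 : IsOpen {w : ℂ | w.im ≠ 0} := isOpen_ne_fun Complex.continuous_im continuous_const
  have h2 : IsOpen {w : ℂ | 2 < |w.re|} :=
    isOpen_lt continuous_const (continuous_abs.comp Complex.continuous_re)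
  exact h1.union h2

/-- the square root of `1 - 4 / w²` -/
noncomputable def rt (w : ℂ) : ℂ := Complex.exp (Complex.log (1 - 4 / w ^ 2) / 2)

theorem rt_sq {w : ℂ} (h : Out w) : rt w ^ 2 = 1 - 4 / w ^ 2 := by
  unfold rt
  rw [← Complex.exp_nat_mul]
  rw [show ((2 : ℕ) : ℂ) * (Complex.log (1 - 4 / w ^ 2) / 2) = Complex.log (1 - 4 / w ^ 2) by
    push_cast; ring, Complex.exp_log (Complex.slitPlane_ne_zero h.slit)]

theorem rt_ne (w : ℂ) : rt w ≠ 0 := Complex.exp_ne_zero _

/-- `√(w² - 4)` -/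
noncomputable def yy (w : ℂ) : ℂ := w * rt w

theorem yy_sq {w : ℂ} (h : Out w) : yy w ^ 2 = w ^ 2 - 4 := by
  have hw := h.ne
  unfold yy
  rw [mul_pow, rt_sq h]
  field_simp

theorem yy_ne {w : ℂ} (h : Out w) : yy w ≠ 0 := mul_ne_zero h.ne (rt_ne w)

/-- the root of `z + 1/z = w` outside of the unit circle -/
noncomputable def J (w : ℂ) : ℂ := (w + yy w) / 2

theorem J_eq {w : ℂ} (h : Out w) : J w ^ 2 - w * J w + 1 = 0 := by
  have h1 := yy_sq h
  unfold J
  linear_combination (1 / 4 : ℂ) * h1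

theorem J_ne {w : ℂ} (h : Out w) : J w ≠ 0 := by
  intro h0
  have := J_eq h
  rw [h0] at this
  simp at this

theorem J_sub {w : ℂ} (h : Out w) : J w - (J w)⁻¹ = yy w := by
  have h1 := J_eq h
  have h2 := J_ne h
  have h3 : (J w)⁻¹ = w - J w := by
    refine inv_eq_of_mul_eq_one_left ?_
    linear_combination -h1
  rw [h3]
  unfold J
  ring

theorem differentiableAt_rt {w : ℂ} (h : Out w) : DifferentiableAt ℂ rt w := by
  unfold rt
  have hw := h.ne
  have h1 : DifferentiableAt ℂ (fun w : ℂ => 1 - 4 / w ^ 2) w :=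
    (differentiableAt_const _).sub ((differentiableAt_const _).fun_div (differentiableAt_id.pow 2)
      (pow_ne_zero 2 hw))
  exact ((h1.clog h.slit).div_const 2).cexp

theorem differentiableAt_yy {w : ℂ} (h : Out w) : DifferentiableAt ℂ yy w :=
  differentiableAt_id.mul (differentiableAt_rt h)

theorem differentiableAt_J {w : ℂ} (h : Out w) : DifferentiableAt ℂ J w :=
  (differentiableAt_id.add (differentiableAt_yy h)).div_const 2

theorem hasDerivAt_J {w : ℂ} (h : Out w) : HasDerivAt J (J w / yy w) w := by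
  have h1 := (differentiableAt_J h).hasDerivAt
  have h2 : HasDerivAt (fun w => J w ^ 2 - w * J w + 1)
      (2 * J w * deriv J w - (1 * J w + w * deriv J w)) w := by
    have := ((h1.pow 2).sub ((hasDerivAt_id w).mul h1)).add_const (1 : ℂ)
    simpa using this
  have h3 : HasDerivAt (fun w => J w ^ 2 - w * J w + 1) 0 w :=
    (hasDerivAt_const w (0 : ℂ)).congr_of_eventuallyEq
      (Filter.mem_of_superset (isOpen_out.mem_nhds h) fun v hv => J_eq hv)
  have h4 := h2.unique h3
  have h5 : deriv J w * yy w = J w := by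
    have e : 2 * J w - w = yy w := by
      unfold J
      ring
    rw [← e]
    linear_combination h4
  rw [eq_div_of_mul_eq (yy_ne h) h5] at h1
  exact h1

open scoped ComplexConjugate in
theorem rt_conj {w : ℂ} (h : Out w) : rt (conj w) = conj (rt w) := by
  unfold rt
  rw [← Complex.exp_conj]
  congr 1
  have h1 : (1 - 4 / (conj w) ^ 2 : ℂ) = conj (1 - 4 / w ^ 2) := by
    simp [map_ofNat]
  rw [h1, Complex.log_conj _ (Complex.slitPlane_arg_ne_pi h.slit)]
  simp [map_ofNat]

open scoped ComplexConjugate in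
theorem J_conj {w : ℂ} (h : Out w) : J (conj w) = conj (J w) := by
  unfold J yy
  rw [rt_conj h]
  simp [map_ofNat]

end Pool.Agent.E8helper67.TR
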