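import Pool.Agent.E8helper67.TR.Circ
set_option autoImplicit false

/-!
The jump of a Cauchy integral along a circle.
-/

namespace Pool.Agent.E8helper67.TR

open Polynomial MeasureTheory Set Filter Topology

open Pool.Agent.E8helper67.PS

theorem differentiableAt_Om (F : ℂ[X]) {x : ℂ} (h : Out (F.eval x)) :
    DifferentiableAt ℂ (Om F) x := by
  unfold Om
  have h1 : DifferentiableAt ℂ (fun x => yy (F.eval x)) x :=
    DifferentiableAt.comp (g := yy) x (differentiableAt_yy h) F.differentiable.differentiableAt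
  exact F.derivative.differentiable.differentiableAt.div h1 (yy_ne h)

section

variable {f : ℂ → ℂ} {c : ℂ} {r R : ℝ} (h0 : 0 < r) (hle : r ≤ R)
  (hf : ∀ x, r ≤ ‖x - c‖ → ‖x - c‖ ≤ R → DifferentiableAt ℂ f x) {b : ℂ}

include h0 hle hf

theorem ann_out (hb : R < ‖b - c‖) :
    (∮ x in C(c, R), f x / (x - b)) = ∮ x in C(c, r), f x / (x - b) := by
  have hd : ∀ x, r ≤ ‖x - c‖ → ‖x - c‖ ≤ R → DifferentiableAt ℂ (fun x => f x / (x - b)) x := by
    intro x h1 h2
    refine (hf x h1 h2).div (differentiableAt_id.sub_const b) (sub_ne_zero.2 ?_)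
    rintro h3
    have h3 : x = b := h3
    rw [h3] at h2
    linarith
  refine Complex.circleIntegral_eq_of_differentiable_on_annulus_off_countable h0 hle
    countable_empty ?_ ?_
  · rintro x ⟨hx1, hx2⟩
    rw [mem_closedBall_iff_norm] at hx1
    rw [mem_ball_iff_norm, not_lt] at hx2
    exact (hd x hx2 hx1).continuousAt.continuousWithinAt
  · rintro x ⟨⟨hx1, hx2⟩, -⟩
    rw [mem_ball_iff_norm] at hx1
    rw [mem_closedBall_iff_norm, not_le] at hx2
    exact hd x hx2.le hx1.le

theorem ann_in (hb1 : r < ‖b - c‖) (hb2 : ‖b - c‖ < R) :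
    (∮ x in C(c, R), f x / (x - b)) =
      (∮ x in C(c, r), f x / (x - b)) + 2 * Real.pi * Complex.I * f b := by
  have hfc : ∀ x, r ≤ ‖x - c‖ → ‖x - c‖ ≤ R → ContinuousAt f x := fun x h1 h2 =>
    (hf x h1 h2).continuousAt
  have key : (∮ x in C(c, R), dslope f b x) = ∮ x in C(c, r), dslope f b x := by
    refine Complex.circleIntegral_eq_of_differentiable_on_annulus_off_countable h0 hle
      (countable_singleton b) ?_ ?_
    · rintro x ⟨hx1, hx2⟩
      rw [mem_closedBall_iff_norm] at hx1
      rw [mem_ball_iff_norm, not_lt] at hx2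
      refine ContinuousAt.continuousWithinAt ?_
      by_cases hxb : x = b
      · rw [hxb, continuousAt_dslope_same]
        exact hf b hb1.le hb2.le
      · rw [continuousAt_dslope_of_ne hxb]
        exact hfc x hx2 hx1
    · rintro x ⟨⟨hx1, hx2⟩, hx3⟩
      rw [mem_ball_iff_norm] at hx1
      rw [mem_closedBall_iff_norm, not_le] at hx2
      rw [differentiableAt_dslope_of_ne hx3]
      exact hf x hx2.le hx1.le
  have hsplit : ∀ ρ, 0 < ρ → r ≤ ρ → ρ ≤ R → ρ ≠ ‖b - c‖ → (∮ x in C(c, ρ), dslope f b x) =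
      (∮ x in C(c, ρ), f x / (x - b)) - f b * ∮ x in C(c, ρ), (x - b)⁻¹ := by
    intro ρ h1 h2 h3 h4
    have hne : ∀ x ∈ Metric.sphere c ρ, x ≠ b := by
      rintro x hx rfl
      rw [mem_sphere_iff_norm] at hx
      exact h4 hx.symm
    have hc1 : ContinuousOn (fun x => f x / (x - b)) (Metric.sphere c ρ) := by
      intro x hx
      have hx' := hx
      rw [mem_sphere_iff_norm] at hx'
      refine ContinuousAt.continuousWithinAt ?_
      exact (hfc x (by linarith) (by linarith)).div (continuousAt_id.sub continuousAt_const)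
        (sub_ne_zero.2 (hne x hx))
    have hc2 : ContinuousOn (fun x => f b * (x - b)⁻¹) (Metric.sphere c ρ) := by
      intro x hx
      refine ContinuousAt.continuousWithinAt ?_
      exact continuousAt_const.mul ((continuousAt_id.sub continuousAt_const).inv₀
        (sub_ne_zero.2 (hne x hx)))
    rw [← smul_eq_mul (f b), ← circleIntegral.integral_smul]
    rw [← circleIntegral.integral_sub (hc1.circleIntegrable h1.le)]
    · refine circleIntegral.integral_congr h1.le fun x hx => ?_
      simp only [smul_eq_mul]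
      rw [dslope_of_ne _ (hne x hx), slope_def_field, sub_div]
      ring
    · exact hc2.circleIntegrable h1.le
  have e1 := hsplit R (h0.trans_le hle) hle le_rfl hb2.ne'
  have e2 := hsplit r h0 le_rfl hle hb1.ne
  have e3 : (∮ x in C(c, R), (x - b)⁻¹) = 2 * Real.pi * Complex.I := by
    refine circleIntegral.integral_sub_inv_of_mem_ball ?_
    rw [mem_ball_iff_norm]
    exact hb2
  have e4 : (∮ x in C(c, r), (x - b)⁻¹) = 0 := by
    have hd : ∀ x, ‖x - c‖ ≤ r → DifferentiableAt ℂ (fun x => (x - b)⁻¹) x := by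
      intro x h1
      refine (differentiableAt_id.sub_const b).inv (sub_ne_zero.2 ?_)
      rintro h3
      have h3 : x = b := h3
      rw [h3] at h1
      linarith
    refine Complex.circleIntegral_eq_zero_of_differentiable_on_off_countable h0.le
      countable_empty ?_ ?_
    · intro x hx
      rw [mem_closedBall_iff_norm] at hx
      exact (hd x hx).continuousAt.continuousWithinAt
    · rintro x ⟨hx, -⟩
      rw [mem_ball_iff_norm] at hx
      exact hd x hx.le
  rw [e1, e2, e3, e4] at key
  linear_combination key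

end

/-- The Cauchy integral over a circle has at the right end a jump. -/
theorem exists_jump {F : ℂ[X]} (hF : RealOver F) {A τ : ℝ} (h : Adm F A τ) :
    ∃ (V : ℂ → ℂ) (ε : ℝ), 0 < ε ∧ ContinuousAt V τ ∧
      (∀ b : ℝ, τ < b → (loop hF h).W b = V b) ∧
      (∀ b : ℝ, τ - ε < b → b < τ →
        (loop hF h).W b = V b + 2 * Real.pi * Complex.I * Om F b) := by
  have hO : IsOpen {x : ℝ | Out (F.eval (x : ℂ))} :=
    isOpen_out.preimage (F.continuous.comp Complex.continuous_ofReal)
  obtain ⟨ε1, hε1, h1⟩ := Metric.isOpen_iff.1 hO A h.oA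
  obtain ⟨ε2, hε2, h2⟩ := Metric.isOpen_iff.1 hO τ h.oτ
  have hlt := h.lt
  obtain ⟨ε, hε, hεA, hετ, hεr⟩ : ∃ ε : ℝ, 0 < ε ∧ ε < ε1 ∧ ε < ε2 ∧ 2 * ε < τ - A :=
    ⟨min (min (ε1 / 2) (ε2 / 2)) ((τ - A) / 4), by
      refine lt_min (lt_min (by linarith) (by linarith)) (by linarith),
      by
        have := min_le_left (min (ε1 / 2) (ε2 / 2)) ((τ - A) / 4)
        have := min_le_left (ε1 / 2) (ε2 / 2)
        linarith,
      by
        have := min_le_left (min (ε1 / 2) (ε2 / 2)) ((τ - A) / 4)
        have := min_le_right (ε1 / 2) (ε2 / 2)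
        linarith,
      by
        have := min_le_right (min (ε1 / 2) (ε2 / 2)) ((τ - A) / 4)
        linarith⟩
  have hA : ∀ x : ℝ, |x - A| ≤ ε → Out (F.eval (x : ℂ)) := fun x hx => h1 (by
    rw [Metric.mem_ball, Real.dist_eq]
    linarith)
  have hτ : ∀ x : ℝ, |x - τ| ≤ ε → Out (F.eval (x : ℂ)) := fun x hx => h2 (by
    rw [Metric.mem_ball, Real.dist_eq]
    linarith)
  have h' : Adm F (A + ε) (τ - ε) := by
    refine ⟨by linarith, hA _ ?_, hτ _ ?_⟩
    · rw [add_sub_cancel_left, abs_of_pos hε]
    · rw [show τ - ε - τ = -ε by ring, abs_neg, abs_of_pos hε]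
  have hcen : cen (A + ε) (τ - ε) = cen A τ := by
    unfold cen
    ring
  have hrad : rad (A + ε) (τ - ε) = rad A τ - ε := by
    unfold rad
    ring
  have hr0 : 0 < rad A τ - ε := by
    unfold rad
    linarith
  have hf : ∀ x : ℂ, rad A τ - ε ≤ ‖x - cen A τ‖ → ‖x - cen A τ‖ ≤ rad A τ →
      DifferentiableAt ℂ (Om F) x := by
    intro x hx1 hx2
    refine differentiableAt_Om F ?_
    by_cases hx : x.im = 0
    · obtain ⟨b, rfl⟩ : ∃ b : ℝ, x = b := ⟨x.re, by apply Complex.ext <;> simp [hx]⟩
      rw [real_dist] at hx1 hx2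
      unfold cen rad at hx1 hx2
      rcases le_total 0 (b - (A + τ) / 2) with h3 | h3
      · rw [abs_of_nonneg h3] at hx1 hx2
        refine hτ b ?_
        rw [abs_le]
        constructor <;> linarith
      · rw [abs_of_nonpos h3] at hx1 hx2
        refine hA b ?_
        rw [abs_le]
        constructor <;> linarith
    · exact hF.out hx
  have hWV : ∀ b : ℂ, (loop hF h').W b =
      ∮ x in C((cen A τ : ℂ), rad A τ - ε), Om F x / (x - b) := by
    intro b
    rw [loop_W, hcen, hrad]
  refine ⟨(loop hF h').W, ε, hε, ?_, ?_, ?_⟩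
  · refine ((loop hF h').hasDerivAt_W ?_).continuousAt
    intro t ht
    have h3 := cx_dist h'.lt.le t
    have ht : cx (A + ε) (τ - ε) t = τ := ht
    rw [ht, real_dist, hcen, hrad] at h3
    unfold cen rad at h3
    rw [abs_of_pos (by linarith)] at h3
    linarith
  · intro b hb
    rw [hWV, loop_W]
    refine ann_out hr0 (by linarith) hf ?_
    rw [real_dist]
    unfold cen rad
    rw [abs_of_pos (by linarith)]
    linarith
  · intro b hb1 hb2
    rw [hWV, loop_W]
    refine ann_in hr0 (by linarith) hf ?_ ?_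
    · rw [real_dist]
      unfold cen rad
      rw [abs_of_pos (by linarith)]
      linarith
    · rw [real_dist]
      unfold cen rad
      rw [abs_of_pos (by linarith)]
      linarith

end Pool.Agent.E8helper67.TR
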