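import Pool.Agent.E8helper67.TR.Joint
import Pool.Agent.E8helper67.TR.Def
import Pool.Agent.E8helper67.PS.Def
set_option autoImplicit false

/-!
The proof of the final theorem.
-/

namespace Pool.Agent.E8helper67.TR

open Polynomial

open scoped ComplexConjugate

open Pool.Agent.TH826.MK (KQ symb Torus Unramified)

open Pool.Agent.TH826.HD

open Pool.Agent.TH826.UH (pr NZ PtS mkS mkS_e mkS_reg)

open Pool.Agent.E8helper67.PS (Lp Lp.ptS Lp.torus Lp.torus_e Lp.torus_ppol Lp.torus_reg det_ne
  isIntegral_root SymbUnram exists_ext' unit_add_inv norm_rootOfUnity)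

namespace Setup

variable {K : Type*} [Field K] [NumberField K] {F : K[X]} {M m : ℕ} {P : Setup F M m}

/-- independent special points -/
theorem exists_points (hF : F.Monic) (hn : 0 < F.natDegree) (hM : 0 < M) :
    ∃ S : Fin M → (AlgebraicClosure K →+* ℂ), P.IsExt S ∧
      ∃ b : Fin (M * m + 1) → AlgebraicClosure K, (∀ k, P.Sp S (b k)) ∧
        LinearIndependent ℝ fun k => P.vec S (b k) := by
  classical
  obtain ⟨S, hS, hspan⟩ := exists_span (P := P) hF hn hM
  refine ⟨S, hS, ?_⟩
  set A : Set (Option (Fin M × Fin m) → ℝ) := {v | ∃ b, P.Sp S b ∧ P.vec S b = v} with hA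
  obtain ⟨f, hfA, -, hfl⟩ := Submodule.exists_fun_fin_finrank_span_eq ℝ A
  have hcard : Module.finrank ℝ (Submodule.span ℝ A) = M * m + 1 := by
    rw [hspan, finrank_top, Module.finrank_fintype_fun_eq_card, Fintype.card_option,
      Fintype.card_prod, Fintype.card_fin, Fintype.card_fin]
  choose b hb hbv using hfA
  let e : Fin (M * m + 1) ≃ Fin (Module.finrank ℝ (Submodule.span ℝ A)) := finCongr hcard.symm
  refine ⟨fun k => b (e k), fun k => hb (e k), ?_⟩
  have h1 : (fun k => P.vec S (b (e k))) = f ∘ e := by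
    funext k
    exact hbv (e k)
  rw [h1]
  exact hfl.comp _ e.injective

end Setup

section Conj

variable {L : Type*} [Field L] {s : L →+* ℂ} {G : L[X]} {n : ℕ} {b : Fin n → L}

theorem evA_conj (hs : ∀ y, (s y).im = 0) {x z x' z' : ℂ} (h : PtS s G b x z)
    (h' : PtS s G b x' z') (hx : x' = conj x) (hz : z' = conj z) (r : POpen G b) :
    h'.evA r = conj (h.evA r) := by
  have hsc : (starRingEnd ℂ).comp s = s := RingHom.ext fun y =>
    Complex.conj_eq_iff_im.2 (hs y)
  have hB : ∀ r : PRing G, h'.evB r = conj (h.evB r) := by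
    intro r
    obtain ⟨p, hp⟩ := AdjoinRoot.mk_surjective (g := peqn G) r
    rw [← hp, h'.evB_mk, h.evB_mk, hom_eval₂, hz]
    congr 1
    refine Polynomial.ringHom_ext (fun y => ?_) ?_
    · simp only [coe_eval₂RingHom, eval₂_C, RingHom.comp_apply]
      exact (Complex.conj_eq_iff_im.2 (hs y)).symm
    · simp only [coe_eval₂RingHom, eval₂_X, RingHom.comp_apply]
      exact hx
  obtain ⟨p, hp⟩ := AdjoinRoot.mk_surjective (g := peqnO G b) r
  have e1 : h'.evA (AdjoinRoot.mk (peqnO G b) p : AdjoinRoot (peqnO G b)) =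
      p.eval₂ h'.evB (h'.evB (pDel G b))⁻¹ := liftP_mk _ _ _
  have e2 : h.evA (AdjoinRoot.mk (peqnO G b) p : AdjoinRoot (peqnO G b)) =
      p.eval₂ h.evB (h.evB (pDel G b))⁻¹ := liftP_mk _ _ _
  rw [← hp, e1, e2, hom_eval₂, map_inv₀, ← hB]
  congr 1
  exact RingHom.ext hB

end Conj

/-- special extensions are real over the real places at which all bands are real -/
theorem real_ext {K : Type*} [Field K] {F : K[X]} {ι : Type*} {b : ι → AlgebraicClosure K}
    (hb : ∀ k, ∃ ζ : AlgebraicClosure K, (∃ n : ℕ, n ≠ 0 ∧ ζ ^ n = 1) ∧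
      (F.map (algebraMap K (AlgebraicClosure K))).eval (b k) = ζ + ζ⁻¹)
    (ν : IntermediateField.adjoin K (Set.range b) →+* ℂ)
    (hK : ∀ x : K, (ν (algebraMap K (IntermediateField.adjoin K (Set.range b)) x)).im = 0)
    (hR : RealOver (F.map (ν.comp (algebraMap K (IntermediateField.adjoin K (Set.range b))))))
    (y : IntermediateField.adjoin K (Set.range b)) : (ν y).im = 0 := by
  obtain ⟨S, hS⟩ := exists_ext' (E := AlgebraicClosure K) ν
  have hSν : S.comp (algebraMap K (AlgebraicClosure K)) =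
      ν.comp (algebraMap K (IntermediateField.adjoin K (Set.range b))) :=
    RingHom.ext fun x => hS (algebraMap K (IntermediateField.adjoin K (Set.range b)) x)
  have hSK : ∀ x : K, (S (algebraMap K (AlgebraicClosure K) x)).im = 0 := fun x => by
    have h1 := RingHom.congr_fun hSν x
    simp only [RingHom.comp_apply] at h1
    rw [h1]
    exact hK x
  have hSb : ∀ k, (S (b k)).im = 0 := by
    intro k
    obtain ⟨ζ, ⟨n, hn, hζn⟩, hζ⟩ := hb k
    rw [← hSν] at hR
    refine hR (2 * (S ζ).re) ?_ (S (b k)) ?_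
    · have h1 := norm_rootOfUnity S hn hζn
      have h2 := Complex.abs_re_le_norm (S ζ)
      rw [abs_mul, abs_of_pos (by norm_num : (0 : ℝ) < 2)]
      linarith
    · rw [← Polynomial.map_map, eval_map, eval₂_at_apply, hζ, map_add, map_inv₀]
      exact unit_add_inv (norm_rootOfUnity S hn hζn)
  let T₀ : Subfield (AlgebraicClosure K) := (Complex.ofRealHom.fieldRange).comap S
  have hT₀ : ∀ x, x ∈ T₀ ↔ (S x).im = 0 := by
    intro x
    rw [Subfield.mem_comap, RingHom.mem_fieldRange]
    constructor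
    · rintro ⟨r, hr⟩
      rw [← hr]
      exact Complex.ofReal_im r
    · intro h
      exact ⟨(S x).re, by apply Complex.ext <;> simp [h]⟩
  let T : IntermediateField K (AlgebraicClosure K) :=
    T₀.toIntermediateField fun x => (hT₀ _).2 (hSK x)
  have hT : ∀ x, x ∈ T ↔ (S x).im = 0 := hT₀
  have h1 : IntermediateField.adjoin K (Set.range b) ≤ T := by
    rw [IntermediateField.adjoin_le_iff]
    rintro _ ⟨k, rfl⟩
    exact (hT _).2 (hSb k)
  have h2 := (hT _).1 (h1 y.2)
  have h3 := hS y
  rw [← h3]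
  exact h2

/-- The final theorem. -/
theorem main.{u, v} (g M : ℕ) (hM : 0 < M) (K : Type u) [Field K] [NumberField K]
    (s : Fin M → (K →+* ℂ)) (hs : ∀ i x, (s i x).im = 0) (F B f : K[X]) (hF : F.Monic)
    (hint : ∀ i, IsIntegral ℤ (F.coeff i)) (hBf : F ^ 2 - 4 = B ^ 2 * f) (hf : f.Separable)
    (hdeg : f.natDegree = 2 * g + 2) (hR : ∀ i, RealOver (F.map (s i))) :
    ∃ (L : Type u) (_ : Field L) (_ : NumberField L) (_ : Algebra K L)
      (σ : Fin M → (L →+* ℂ)) (b : Fin (M * g + 1) → L),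
      RealExt F L ∧
      (∀ i x, σ i (algebraMap K L x) = s i x) ∧
      (∀ k, IsIntegral ℤ (b k)) ∧
      IsDomain (PRing (F.map (algebraMap K L))) ∧
      SymbUnram.{v} (F.map (algebraMap K L)) b ∧
      ConjRegIndep (N := g) (F.map (algebraMap K L)) b σ := by
  classical
  have hn : 0 < F.natDegree := by
    by_contra h0
    have h1 : F = 1 := hF.natDegree_eq_zero.1 (by omega)
    rw [h1] at hBf
    have hf0 : f ≠ 0 := hf.ne_zero
    have hB0 : B ≠ 0 := by
      intro hB
      rw [hB] at hBf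
      have h2 := congrArg (Polynomial.eval 0) hBf
      norm_num at h2
    have h2 := congrArg natDegree hBf
    rw [natDegree_mul (pow_ne_zero 2 hB0) hf0, hdeg] at h2
    have h3 : ((1 : K[X]) ^ 2 - 4).natDegree = 0 := by
      have h4 : ((1 : K[X]) ^ 2 - 4) = C (1 - 4) := by
        rw [C_sub, C_1, one_pow]
        rfl
      rw [h4, natDegree_C]
    omega
  -- the chains
  have hch : ∀ i, Nonempty (Chain (F.map (s i)) g) := by
    intro i
    refine exists_chain (B := B.map (s i)) (f := f.map (s i)) (hF.map _)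
      (by rw [natDegree_map_eq_of_injective (s i).injective]; exact hn) (hR i) ?_
      (hf.map) ?_
    · have h1 := congrArg (Polynomial.map (s i)) hBf
      simpa [Polynomial.map_sub, Polynomial.map_mul, Polynomial.map_pow] using h1
    · rw [natDegree_map_eq_of_injective (s i).injective]
      exact hdeg
  let P : Setup F M g := ⟨s, hR, fun i => (hch i).some⟩
  obtain ⟨S, hS, b', hb', hlin⟩ := Setup.exists_points (P := P) hF hn hM
  -- the field
  let L₀ : IntermediateField K (AlgebraicClosure K) :=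
    IntermediateField.adjoin K (Set.range b')
  have hfin : FiniteDimensional K L₀ :=
    IntermediateField.finiteDimensional_adjoin fun x _ => Algebra.IsIntegral.isIntegral x
  have hNF : NumberField L₀ := by
    have : FiniteDimensional ℚ L₀ := FiniteDimensional.trans ℚ K L₀
    exact { to_charZero := inferInstance, to_finiteDimensional := this }
  have htr : RealExt F L₀ := fun ν h1 h2 =>
    real_ext (fun k => by
      obtain ⟨ζ, hζ1, hζ2, -⟩ := hb' k
      exact ⟨ζ, hζ1, hζ2⟩) ν h1 h2
  let ι : L₀ →+* AlgebraicClosure K := algebraMap L₀ (AlgebraicClosure K)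
  have hι : Function.Injective ι := ι.injective
  let σ : Fin M → (L₀ →+* ℂ) := fun i => (S i).comp ι
  let b : Fin (M * g + 1) → L₀ := fun k =>
    ⟨b' k, IntermediateField.subset_adjoin K _ ⟨k, rfl⟩⟩
  have hσb : ∀ i k, σ i (b k) = S i (b' k) := fun i k => rfl
  have hσ : ∀ i x, σ i (algebraMap K L₀ x) = s i x := by
    intro i x
    have h1 := hS i x
    exact h1
  set G : L₀[X] := F.map (algebraMap K L₀) with hG
  have hGm : G.Monic := hF.map _
  have hGn : 0 < G.natDegree := by
    rw [hG, natDegree_map_eq_of_injective (algebraMap K L₀).injective]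
    exact hn
  have hGint : ∀ i, IsIntegral ℤ (G.coeff i) := by
    intro i
    rw [hG, coeff_map]
    exact (hint i).map ((algebraMap K L₀).toIntAlgHom)
  have hGσ : ∀ i, G.map (σ i) = F.map (s i) := by
    intro i
    rw [hG, Polynomial.map_map]
    congr 1
    exact RingHom.ext fun x => hσ i x
  have hιG : ∀ k, ι (G.eval (b k)) = (F.map (algebraMap K (AlgebraicClosure K))).eval (b' k) := by
    intro k
    rw [hG, eval_map, eval_map, hom_eval₂]
    rfl
  have hbint : ∀ k, IsIntegral ℤ (b k) := by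
    intro k
    refine isIntegral_root hGm hGn hGint ?_
    obtain ⟨ζ, ⟨n, hn0, hζn⟩, hζ, -⟩ := hb' k
    rw [← isIntegral_algHom_iff (ι.toIntAlgHom) hι]
    show IsIntegral ℤ (ι (G.eval (b k)))
    rw [hιG, hζ]
    have h1 : IsIntegral ℤ ζ := ⟨X ^ n - 1, monic_X_pow_sub_C 1 hn0, by simp [hζn]⟩
    have h2 : IsIntegral ℤ ζ⁻¹ := ⟨X ^ n - 1, monic_X_pow_sub_C 1 hn0, by simp [hζn]⟩
    exact h1.add h2
  have hσζ : ∀ i k, ∃ (ζ : ℂ) (n : ℕ), n ≠ 0 ∧ ζ ^ n = 1 ∧ σ i (G.eval (b k)) = ζ + ζ⁻¹ := by
    intro i k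
    obtain ⟨ζ, ⟨n, hn0, hζn⟩, hζ, -⟩ := hb' k
    refine ⟨S i ζ, n, hn0, by rw [← map_pow, hζn, map_one], ?_⟩
    show S i (ι (G.eval (b k))) = _
    rw [hιG, hζ, map_add, map_inv₀]
  have hoff : ∀ (i : Fin M) (j : Fin g) (k), (P.g i j).Off (σ i (b k)) := by
    intro i j k
    obtain ⟨ζ, hζ1, hζ, hgood⟩ := hb' k
    refine P.off i (hgood i) ?_ j
    rw [hσb, hS.eval, hζ, Setup.ext_add_inv i hζ1]
  have hσr : ∀ i (y : L₀), (σ i y).im = 0 := by
    intro i
    refine htr (σ i) (fun x => ?_) ?_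
    · rw [hσ]
      exact hs i x
    · have h1 : (σ i).comp (algebraMap K L₀) = s i := RingHom.ext fun x => hσ i x
      rw [h1]
      exact hR i
  refine ⟨L₀, inferInstance, hNF, inferInstance, σ, b, htr, hσ, hbint, isDomain_PRing hGn, ?_, ?_⟩
  · intro E _ _ _
    have hinj : Function.Injective (algebraMap (PRing G) E) := IsFractionRing.injective _ _
    have hne : algebraMap (PRing G) E (pDel G b) ≠ 0 := by
      rw [Ne, map_eq_zero_iff _ hinj]
      exact pDel_ne_zero b
    exact ⟨liftP (algebraMap (PRing G) E) hne, fun r => liftP_toP _ _ _,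
      fun k l => Pool.Agent.TH826.UH.symb_mem_unramified _ (σ ⟨0, hM⟩) hGint hbint k l
        (hσζ ⟨0, hM⟩)⟩
  · let e : Fin (M * g) ≃ Fin M × Fin g := finProdFinEquiv.symm
    refine ⟨fun l => (P.g (e l).1 (e l).2).torus (hGσ (e l).1) (hoff (e l).1 (e l).2), ?_, ?_,
      ?_, ?_⟩
    · intro l θ y
      rw [Lp.torus_e]
      rfl
    · intro l θ
      rw [Lp.torus_ppol, ← derivative_map, hGσ]
      exact (P.ch (e l).1).lp_der (P.ro (e l).1)
        (by rw [natDegree_map_eq_of_injective (P.s (e l).1).injective]; exact hn) (e l).2 (θ 0)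
    · intro l θ r
      unfold Lp.torus
      rw [mkS_e, mkS_e]
      refine evA_conj (hσr _) _ _ ?_ ?_ r
      · exact cx_conj (θ 0)
      · exact loop_z_conj (P.ro (e l).1) ((P.ch (e l).1).adm (e l).2)
          ((P.ro (e l).1).map_conj (hF.map _)) (θ 0)
    · have h1 := det_ne (fun k => P.vec S (b' k)) hlin (fun k => rfl) e
      simp only [Lp.torus_reg]
      exact h1

end Pool.Agent.E8helper67.TR
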