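import Pool.Agent.E8helper67.TR.Jump
import Pool.Agent.E8helper67.PS.Local
set_option autoImplicit false

/-!
Reality: complex conjugation on the circles, and the good values.
-/

namespace Pool.Agent.E8helper67.TR

open Polynomial MeasureTheory Set Filter Topology

open scoped ComplexConjugate

open Pool.Agent.E8helper67.PS

theorem eval_conj {F : ℂ[X]} (h : F.map (starRingEnd ℂ) = F) (x : ℂ) :
    F.eval (conj x) = conj (F.eval x) := by
  conv_lhs => rw [← h]
  rw [eval_map, eval₂_at_apply]

theorem der_conj {F : ℂ[X]} (h : F.map (starRingEnd ℂ) = F) :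
    F.derivative.map (starRingEnd ℂ) = F.derivative := by
  rw [← derivative_map, h]

/-- a real value at a real point -/
theorem eval_real {F : ℂ[X]} (h : F.map (starRingEnd ℂ) = F) (x : ℝ) :
    F.eval (x : ℂ) = ((F.eval (x : ℂ)).re : ℂ) := by
  have h1 := eval_conj h (x : ℂ)
  rw [Complex.conj_ofReal] at h1
  exact (Complex.conj_eq_iff_re.1 h1.symm).symm

/-- a monic polynomial with real roots only is real -/
theorem map_conj_of_roots {F : ℂ[X]} (hF : F.Monic) (h : ∀ x, F.eval x = 0 → x.im = 0) :
    F.map (starRingEnd ℂ) = F := by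
  have h1 := (IsAlgClosed.splits F).eq_prod_roots
  rw [hF.leadingCoeff, C_1, one_mul] at h1
  conv_lhs => rw [h1]
  conv_rhs => rw [h1]
  rw [Polynomial.map_multiset_prod, Multiset.map_map]
  congr 1
  refine Multiset.map_congr rfl fun r hr => ?_
  have h2 : F.eval r = 0 := isRoot_of_mem_roots hr
  simp only [Function.comp_apply, Polynomial.map_sub, map_X, map_C]
  rw [Complex.conj_eq_iff_im.2 (h r h2)]

theorem RealOver.map_conj {F : ℂ[X]} (h : RealOver F) (hF : F.Monic) :
    F.map (starRingEnd ℂ) = F :=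
  map_conj_of_roots hF fun x hx => h 0 (by norm_num) x (by rw [hx, Complex.ofReal_zero])

/-- the critical points are real -/
theorem RealOver.der_im {F : ℂ[X]} (h : RealOver F) (hn : 0 < F.natDegree) {x : ℂ}
    (hx : F.derivative.eval x = 0) : x.im = 0 := by
  have hd : 0 < F.degree := natDegree_pos_iff_degree_pos.1 hn
  have hd0 : derivative F ≠ 0 := by
    intro h0
    have := Polynomial.derivative_eq_zero.1 h0
    omega
  have h1 := rootSet_derivative_subset_convexHull_rootSet hd
  have h2 : x ∈ (derivative F).rootSet ℂ := by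
    rw [mem_rootSet]
    refine ⟨hd0, ?_⟩
    rw [coe_aeval_eq_eval]
    exact hx
  have h3 : F.rootSet ℂ ⊆ {z : ℂ | z.im = 0} := by
    intro z hz
    rw [mem_rootSet, coe_aeval_eq_eval] at hz
    exact h 0 (by norm_num) z (by rw [hz.2, Complex.ofReal_zero])
  have h4 : Convex ℝ {z : ℂ | z.im = 0} := by
    have h5 : IsLinearMap ℝ Complex.im := ⟨fun _ _ => rfl, fun c z => by simp⟩
    exact convex_hyperplane h5 0
  exact convexHull_min h3 h4 (h1 h2)

section

variable {F : ℂ[X]} (hF : RealOver F) {A τ : ℝ} (h : Adm F A τ)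

theorem cx_conj (t : ℝ) : cx A τ (-t) = conj (cx A τ t) := by
  unfold cx circleMap
  rw [map_add, map_mul, Complex.conj_ofReal, Complex.conj_ofReal, ← Complex.exp_conj, map_mul,
    Complex.conj_I, Complex.conj_ofReal]
  congr 3
  push_cast
  ring

theorem loop_z_conj (hc : F.map (starRingEnd ℂ) = F) (t : ℝ) :
    (loop hF h).z (-t) = conj ((loop hF h).z t) := by
  show J (F.eval (cx A τ (-t))) = conj (J (F.eval (cx A τ t)))
  rw [cx_conj, eval_conj hc, J_conj (cx_out hF h t)]

theorem loop_ell_conj (hc : F.map (starRingEnd ℂ) = F) (t : ℝ) :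
    (loop hF h).ell (-t) = -conj ((loop hF h).ell t) := by
  have h1 : (fun t => (loop hF h).z (-t)) = fun t => conj ((loop hF h).z t) := by
    funext t
    exact loop_z_conj hF h hc t
  have h2 : HasDerivAt (fun t => (loop hF h).z (-t)) (-deriv (loop hF h).z (-t)) t := by
    have h3 : HasDerivAt (fun t => (loop hF h).z (-t)) ((-1 : ℝ) • deriv (loop hF h).z (-t)) t :=
      ((loop hF h).hasDerivAt_z (-t)).scomp t (hasDerivAt_neg t)
    refine h3.congr_deriv ?_
    rw [neg_smul, one_smul]
  have h3 : HasDerivAt (fun t => conj ((loop hF h).z t)) (conj (deriv (loop hF h).z t)) t :=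
    Complex.conjCLE.toContinuousLinearMap.hasFDerivAt.comp_hasDerivAt t
      ((loop hF h).hasDerivAt_z t)
  rw [← h1] at h3
  have h4 := h2.unique h3
  unfold Lp.ell
  rw [loop_z_conj hF h hc, map_div₀, ← h4, neg_div, neg_neg]

theorem loop_W_re (hc : F.map (starRingEnd ℂ) = F) (b : ℝ) : ((loop hF h).W b).re = 0 := by
  set φ : ℝ → ℂ := fun t => (loop hF h).ell t / ((loop hF h).x t - b) with hφ
  have hper : Function.Periodic φ 1 := by
    intro t
    have h1 : (loop hF h).ell (t + 1) = (loop hF h).ell t := by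
      rw [loop_ell, loop_ell, cx_add]
      congr 1
      have h2 : (fun t => cx A τ (t + 1)) = cx A τ := funext fun t => cx_add A τ t
      conv_rhs => rw [← h2]
      rw [deriv_comp_add_const]
    simp only [hφ]
    rw [h1, (loop hF h).px]
  have hconj : ∀ t, conj (φ t) = -φ (-t) := by
    intro t
    simp only [hφ]
    rw [loop_ell_conj hF h hc, map_div₀, map_sub, Complex.conj_ofReal]
    have h1 : (loop hF h).x (-t) = conj ((loop hF h).x t) := cx_conj t
    rw [h1]
    ring
  have h1 : (loop hF h).W b = ∫ t in (0 : ℝ)..1, φ t := rfl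
  have h2 : conj ((loop hF h).W b) = -(loop hF h).W b := by
    rw [h1, ← intervalIntegral.intervalIntegral_conj]
    simp only [hconj]
    rw [intervalIntegral.integral_neg, intervalIntegral.integral_comp_neg]
    have h3 := hper.intervalIntegral_add_eq (-1) 0
    rw [neg_add_cancel, zero_add] at h3
    rw [neg_zero, h3]
  have h3 := congrArg Complex.re h2
  rw [Complex.conj_re, Complex.neg_re] at h3
  linarith

end

/-- good values -/
def Good (F : ℂ[X]) (t : ℝ) : Prop :=
  t ∈ Ioo (-2 : ℝ) 2 ∧ ∀ x, F.eval x = t → F.derivative.eval x ≠ 0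

theorem bad_finite {F : ℂ[X]} (hn : 0 < F.natDegree) :
    {t : ℝ | t ∈ Ioo (-2 : ℝ) 2 ∧ ¬ Good F t}.Finite := by
  have hd0 : derivative F ≠ 0 := by
    intro h0
    have := Polynomial.derivative_eq_zero.1 h0
    omega
  have h1 : ((fun z : ℂ => (F.eval z).re) '' {z | F.derivative.eval z = 0}).Finite := by
    refine Set.Finite.image _ (((derivative F).roots.toFinset.finite_toSet).subset fun z hz => ?_)
    simp only [Finset.mem_coe, Multiset.mem_toFinset, mem_roots hd0]
    exact hz
  refine h1.subset ?_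
  rintro t ⟨ht, hbad⟩
  unfold Good at hbad
  push Not at hbad
  obtain ⟨x, hx, hx'⟩ := hbad ht
  exact ⟨x, hx', by simp only [hx, Complex.ofReal_re]⟩

theorem good_eq (F : ℂ[X]) :
    {t : ℝ | Good F t} = Ioo (-2 : ℝ) 2 \ {t : ℝ | t ∈ Ioo (-2 : ℝ) 2 ∧ ¬ Good F t} := by
  ext t
  simp only [mem_ofPred_eq, Set.mem_sdiff, not_and, not_not]
  exact ⟨fun h => ⟨h.1, fun _ => h⟩, fun h => h.2 h.1⟩

theorem good_open {F : ℂ[X]} (hn : 0 < F.natDegree) : IsOpen {t : ℝ | Good F t} := by
  rw [good_eq]
  exact isOpen_Ioo.sdiff (bad_finite hn).isClosed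

theorem good_infinite {F : ℂ[X]} (hn : 0 < F.natDegree) : {t : ℝ | Good F t}.Infinite := by
  rw [good_eq]
  exact (Ioo_infinite (by norm_num)).sdiff (bad_finite hn)

/-- points over good values do not lie on the circles -/
theorem loop_off {F : ℂ[X]} (hF : RealOver F) {A τ : ℝ} (h : Adm F A τ) {t : ℝ} (ht : |t| ≤ 2)
    {x : ℂ} (hx : F.eval x = t) : (loop hF h).Off x := by
  rintro s rfl
  exact (cx_out hF h s).ne_real ht hx

end Pool.Agent.E8helper67.TR
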